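import Pool.Agent.Helper27.CB.Danskin

/-!
# Algebra of the perturbation of the zeros
-/

set_option autoImplicit false

open Set Filter Topology

namespace Pool.Agent.Helper27.CB

variable {m : ℕ}

/-- the coefficient quantity attached to the `i`-th zero -/
noncomputable def SS (e : ℕ) (b : Fin (m + 1) → ℝ) (i : Fin (m + 1)) : ℝ :=
  (2 * e + 1) + 4 * ∑ j ∈ Finset.univ.erase i, b i / (b i - b j)

theorem IsTop.sum {e : ℕ} {b : Fin (m + 1) → ℝ} {k : Fin (m + 1)} {τ : ℝ}
    (hτ : IsTop e b k τ) : ∑ j, τ / (b j - τ) = e / 2 := by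
  have h := hτ.zero
  unfold NN at h
  have h1 : ∑ j, τ / (b j - τ) = - ∑ j, τ / (τ - b j) := by
    rw [← Finset.sum_neg_distrib]
    exact Finset.sum_congr rfl fun j _ => by rw [← div_neg, neg_sub]
  linarith

theorem IsTop.ne {e : ℕ} {b : Fin (m + 1) → ℝ} {k : Fin (m + 1)} {τ : ℝ}
    (hτ : IsTop e b k τ) (j : Fin (m + 1)) : b j - τ ≠ 0 := by
  have := hτ.reg.ne j
  intro h
  apply this
  linarith

theorem tops_lt {e : ℕ} {b : Fin (m + 1) → ℝ} {k l : Fin (m + 1)} {τ σ : ℝ}
    (hτ : IsTop e b k τ) (hσ : IsTop e b l σ) (hkl : k < l) : τ < σ :=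
  (hτ.reg.2.2 k le_rfl).trans (hσ.reg.2.1 k hkl)

theorem tops_ne {e : ℕ} {b : Fin (m + 1) → ℝ} {k l : Fin (m + 1)} {τ σ : ℝ}
    (hτ : IsTop e b k τ) (hσ : IsTop e b l σ) (hkl : k ≠ l) : τ ≠ σ := by
  rcases lt_or_gt_of_ne hkl with h | h
  · exact (tops_lt hτ hσ h).ne
  · exact (tops_lt hσ hτ h).ne'

/-- orthogonality of the directions -/
theorem cross_sum {e : ℕ} {b : Fin (m + 1) → ℝ} {k l : Fin (m + 1)} {τ σ : ℝ}
    (hτ : IsTop e b k τ) (hσ : IsTop e b l σ) (hkl : k ≠ l) :
    ∑ j, b j / (b j - τ) / (b j - σ) = 0 := by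
  have hne : τ - σ ≠ 0 := sub_ne_zero.2 (tops_ne hτ hσ hkl)
  have h1 : ∀ j, b j / (b j - τ) / (b j - σ)
      = (τ / (b j - τ) - σ / (b j - σ)) / (τ - σ) := by
    intro j
    have h2 := hτ.ne j
    have h3 := hσ.ne j
    field_simp
    ring
  rw [Finset.sum_congr rfl fun j _ => h1 j, ← Finset.sum_div, Finset.sum_sub_distrib, hτ.sum,
    hσ.sum, sub_self, zero_div]

/-- the diagonal terms -/
noncomputable def lam (b : Fin (m + 1) → ℝ) (τ : ℝ) : ℝ :=
  2 * ∑ j, b j / (b j - τ) / (b j - τ)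

theorem lam_pos {e : ℕ} {b : Fin (m + 1) → ℝ} (hb : Good b) {k : Fin (m + 1)} {τ : ℝ}
    (hτ : IsTop e b k τ) : 0 < lam b τ := by
  unfold lam
  refine mul_pos two_pos (Finset.sum_pos (fun j _ => ?_) ⟨0, Finset.mem_univ _⟩)
  rw [div_div]
  exact div_pos (hb.pos j) (mul_self_pos.2 (hτ.ne j))

/-- the perturbation direction with prescribed coefficients -/
noncomputable def dir (b τ ρ : Fin (m + 1) → ℝ) (κ : ℝ) (j : Fin (m + 1)) : ℝ :=
  ∑ k, ρ k * (b j / (b j - τ k)) - κ * b j

theorem radial_sum {e : ℕ} {b : Fin (m + 1) → ℝ} {k : Fin (m + 1)} {τ : ℝ}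
    (hτ : IsTop e b k τ) : ∑ j, b j / (b j - τ) = (m + 1) + e / 2 := by
  have h1 : ∀ j, b j / (b j - τ) = 1 + τ / (b j - τ) := by
    intro j
    have h2 := hτ.ne j
    field_simp
    ring
  rw [Finset.sum_congr rfl fun j _ => h1 j, Finset.sum_add_distrib, hτ.sum]
  simp

theorem rate {e : ℕ} {b τ ρ : Fin (m + 1) → ℝ} {κ : ℝ} (hτ : ∀ k, IsTop e b k (τ k))
    (l : Fin (m + 1)) :
    2 * ∑ j, dir b τ ρ κ j / (b j - τ l)
      = ρ l * lam b (τ l) - κ * (2 * (m + 1) + e) := by
  have h1 : ∀ j, dir b τ ρ κ j / (b j - τ l)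
      = ∑ k, ρ k * (b j / (b j - τ k) / (b j - τ l)) - κ * (b j / (b j - τ l)) := by
    intro j
    unfold dir
    rw [sub_div, Finset.sum_div]
    congr 1
    · exact Finset.sum_congr rfl fun k _ => by ring
    · ring
  rw [Finset.sum_congr rfl fun j _ => h1 j, Finset.sum_sub_distrib, Finset.sum_comm,
    ← Finset.mul_sum, radial_sum (hτ l)]
  have h2 : ∑ k, ∑ j, ρ k * (b j / (b j - τ k) / (b j - τ l))
      = ρ l * ∑ j, b j / (b j - τ l) / (b j - τ l) := by
    rw [Finset.sum_eq_single l]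
    · rw [Finset.mul_sum]
    · intro k _ hk
      rw [← Finset.mul_sum, cross_sum (hτ k) (hτ l) hk, mul_zero]
    · intro h
      exact absurd (Finset.mem_univ _) h
  rw [h2]
  unfold lam
  ring

/-- derivative of `SS` -/
noncomputable def DS (b v : Fin (m + 1) → ℝ) (i : Fin (m + 1)) : ℝ :=
  4 * ∑ j ∈ Finset.univ.erase i, (b i * v j - b j * v i) / (b i - b j) ^ 2

theorem Good.ne {b : Fin (m + 1) → ℝ} (hb : Good b) {i j : Fin (m + 1)} (hij : j ≠ i) :
    b i - b j ≠ 0 := sub_ne_zero.2 fun h => hij (hb.2.injective h.symm)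

theorem hasDerivAt_SS (e : ℕ) {b v : Fin (m + 1) → ℝ} (hb : Good b) (i : Fin (m + 1)) :
    HasDerivAt (fun t : ℝ => SS e (b + t • v) i) (DS b v i) 0 := by
  unfold SS DS
  refine HasDerivAt.const_add _ (HasDerivAt.const_mul _ ?_)
  refine HasDerivAt.fun_sum fun j hj => ?_
  have hne := hb.ne (Finset.ne_of_mem_erase hj)
  have h1 : HasDerivAt (fun t : ℝ => (b + t • v) i) (v i) 0 := by
    simp only [Pi.add_apply, Pi.smul_apply, smul_eq_mul]
    simpa using ((hasDerivAt_id (0 : ℝ)).mul_const (v i)).const_add (b i)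
  have h2 : HasDerivAt (fun t : ℝ => (b + t • v) j) (v j) 0 := by
    simp only [Pi.add_apply, Pi.smul_apply, smul_eq_mul]
    simpa using ((hasDerivAt_id (0 : ℝ)).mul_const (v j)).const_add (b j)
  have h3 := h1.div (h1.sub h2) (by simpa using hne)
  refine h3.congr_deriv ?_
  simp only [Pi.sub_apply, Pi.add_apply, Pi.smul_apply, smul_eq_mul, zero_mul, add_zero]
  congr 1
  ring

theorem DS_dir {b τ ρ : Fin (m + 1) → ℝ} {κ : ℝ} (i : Fin (m + 1)) :
    DS b (dir b τ ρ κ) i = ∑ k, ρ k * DS b (fun j => b j / (b j - τ k)) i := by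
  unfold DS dir
  have h1 : ∀ j ∈ Finset.univ.erase i,
      (b i * (∑ k, ρ k * (b j / (b j - τ k)) - κ * b j)
        - b j * (∑ k, ρ k * (b i / (b i - τ k)) - κ * b i)) / (b i - b j) ^ 2
      = ∑ k, ρ k * ((b i * (b j / (b j - τ k)) - b j * (b i / (b i - τ k)))
        / (b i - b j) ^ 2) := by
    intro j _
    have e1 : b i * (∑ k, ρ k * (b j / (b j - τ k)) - κ * b j)
        - b j * (∑ k, ρ k * (b i / (b i - τ k)) - κ * b i)
        = ∑ k, ρ k * (b i * (b j / (b j - τ k)) - b j * (b i / (b i - τ k))) := by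
      rw [mul_sub, mul_sub, Finset.mul_sum, Finset.mul_sum]
      have : ∀ x y z : ℝ, x - z - (y - z) = x - y := fun x y z => by ring
      rw [show b j * (κ * b i) = b i * (κ * b j) by ring, this, ← Finset.sum_sub_distrib]
      exact Finset.sum_congr rfl fun k _ => by ring
    rw [e1, Finset.sum_div]
    exact Finset.sum_congr rfl fun k _ => by ring
  rw [Finset.sum_congr rfl h1, Finset.sum_comm, Finset.mul_sum]
  refine Finset.sum_congr rfl fun k _ => ?_
  rw [← Finset.mul_sum]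
  ring

theorem DS_elem {e : ℕ} {b : Fin (m + 1) → ℝ} (hb : Good b) {k : Fin (m + 1)} {τ : ℝ}
    (hτ : IsTop e b k τ) (i : Fin (m + 1)) :
    DS b (fun j => b j / (b j - τ)) i
      = b i / (b i - τ) ^ 2 * (SS e b i - (b i + 3 * τ) / (b i - τ)) := by
  have hi := hτ.ne i
  have h1 : ∀ j ∈ Finset.univ.erase i,
      (b i * (b j / (b j - τ)) - b j * (b i / (b i - τ))) / (b i - b j) ^ 2
      = b i / (b i - τ) ^ 2 * (b i / (b i - b j) + τ / (b j - τ)) := by
    intro j hj
    have h2 := hτ.ne j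
    have h3 := hb.ne (Finset.ne_of_mem_erase hj)
    field_simp
    ring
  unfold DS SS
  rw [Finset.sum_congr rfl h1, ← Finset.mul_sum, Finset.sum_add_distrib]
  have h4 : ∑ j ∈ Finset.univ.erase i, τ / (b j - τ) = e / 2 - τ / (b i - τ) := by
    have := Finset.add_sum_erase Finset.univ (fun j => τ / (b j - τ)) (Finset.mem_univ i)
    rw [hτ.sum] at this
    linarith
  rw [h4]
  field_simp
  ring

theorem DS_neg {e : ℕ} {b : Fin (m + 1) → ℝ} (hb : Good b) {k : Fin (m + 1)} {τ : ℝ}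
    (hτ : IsTop e b k τ) {i : Fin (m + 1)} (hS : SS e b i = 0) (hk : k ≤ i) :
    DS b (fun j => b j / (b j - τ)) i < 0 := by
  rw [DS_elem hb hτ, hS, zero_sub]
  have h1 : 0 < b i - τ := sub_pos.2 (hτ.reg.2.2 i hk)
  have h2 := hb.pos i
  have h3 := hτ.reg.1
  have : 0 < b i / (b i - τ) ^ 2 * ((b i + 3 * τ) / (b i - τ)) := by positivity
  linarith [this, mul_neg (b i / (b i - τ) ^ 2) ((b i + 3 * τ) / (b i - τ))]

theorem DS_pos {e : ℕ} {b : Fin (m + 1) → ℝ} (hb : Good b) {k : Fin (m + 1)} {τ : ℝ}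
    (hτ : IsTop e b k τ) {i : Fin (m + 1)} (hS : SS e b i = 0) (hk : i < k) :
    0 < DS b (fun j => b j / (b j - τ)) i := by
  rw [DS_elem hb hτ, hS, zero_sub]
  have h1 : 0 < τ - b i := sub_pos.2 (hτ.reg.2.1 i hk)
  have h2 := hb.pos i
  have h3 := hτ.reg.1
  have e1 : -((b i + 3 * τ) / (b i - τ)) = (b i + 3 * τ) / (τ - b i) := by
    rw [← div_neg, neg_sub]
  rw [e1]
  have h4 : b i - τ ≠ 0 := hτ.ne i
  positivity

/-- choice of the rates of change of the heights -/
theorem exists_rates {H D : Fin (m + 1) → ℝ} (hH : Monotone H) (h0 : 0 < H 0)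
    (hlt : H 0 < H (Fin.last m)) {i : Fin (m + 1)} (hneg : ∀ k, k ≤ i → D k < 0)
    (hpos : ∀ k, i < k → 0 < D k) :
    ∃ r : Fin (m + 1) → ℝ, (∀ k l, k < l → H k = H l → r k < r l) ∧
      0 < r 0 * H (Fin.last m) - r (Fin.last m) * H 0 ∧ ∑ k, D k * r k < 0 := by
  obtain ⟨σ, hσ1, hσ2, hσ3⟩ : ∃ σ : Fin (m + 1) → ℝ, (∀ k l, H k = H l → σ k = σ l) ∧
      0 < σ 0 * H (Fin.last m) - σ (Fin.last m) * H 0 ∧ ∑ k, D k * σ k < 0 := by
    by_cases hc : ∀ k, H k = H 0 → k ≤ i
    · refine ⟨fun k => if H k = H 0 then 1 else 0, fun k l hkl => by simp only [hkl], ?_, ?_⟩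
      · simp only [if_true, if_neg hlt.ne']
        linarith
      · refine Finset.sum_neg' (fun k _ => ?_) ⟨0, Finset.mem_univ _, ?_⟩
        · beta_reduce
          split_ifs with hk
          · simpa using (hneg k (hc k hk)).le
          · simp
        · simpa using hneg 0 (Fin.zero_le i)
    · push Not at hc
      obtain ⟨k₀, hk₀, hik₀⟩ := hc
      have hbig : ∀ k, H k = H (Fin.last m) → i < k := by
        intro k hk
        by_contra hh
        have h1 := hH (le_trans (not_lt.1 hh) hik₀.le)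
        rw [hk, hk₀] at h1
        exact absurd h1 (not_le.2 hlt)
      refine ⟨fun k => if H k = H (Fin.last m) then -1 else 0,
        fun k l hkl => by simp only [hkl], ?_, ?_⟩
      · simp only [if_true, if_neg hlt.ne]
        linarith
      · refine Finset.sum_neg' (fun k _ => ?_) ⟨Fin.last m, Finset.mem_univ _, ?_⟩
        · beta_reduce
          split_ifs with hk
          · simpa using (hpos k (hbig k hk)).le
          · simp
        · simpa using hpos _ (hbig _ rfl)
  have hc1 : ContinuousAt (fun ζ : ℝ => (σ 0 + ζ * ((0 : Fin (m + 1)) : ℕ)) * H (Fin.last m)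
      - (σ (Fin.last m) + ζ * ((Fin.last m : Fin (m + 1)) : ℕ)) * H 0) 0 := by fun_prop
  have hc2 : ContinuousAt (fun ζ : ℝ => ∑ k : Fin (m + 1), D k * (σ k + ζ * (k : ℕ))) 0 := by
    fun_prop
  have e1 : ∀ᶠ ζ in 𝓝[>] (0 : ℝ), 0 < (σ 0 + ζ * ((0 : Fin (m + 1)) : ℕ)) * H (Fin.last m)
      - (σ (Fin.last m) + ζ * ((Fin.last m : Fin (m + 1)) : ℕ)) * H 0 :=
    nhdsWithin_le_nhds (hc1.eventually (lt_mem_nhds (by simpa using hσ2)))
  have e2 : ∀ᶠ ζ in 𝓝[>] (0 : ℝ), ∑ k : Fin (m + 1), D k * (σ k + ζ * (k : ℕ)) < 0 :=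
    nhdsWithin_le_nhds (hc2.eventually (gt_mem_nhds (by simpa using hσ3)))
  obtain ⟨ζ, h1, h2, h3⟩ := (e1.and (e2.and self_mem_nhdsWithin)).exists
  refine ⟨fun k => σ k + ζ * (k : ℕ), fun k l hkl hHkl => ?_, h1, h2⟩
  have h4 : ((k : ℕ) : ℝ) < ((l : ℕ) : ℝ) := by exact_mod_cast hkl
  have h5 : (0 : ℝ) < ζ := h3
  have := mul_lt_mul_of_pos_left h4 h5
  simp only [hσ1 k l hHkl]
  linarith

theorem eventually_gt_of_deriv {f : ℝ → ℝ} {f' : ℝ} (h : HasDerivWithinAt f f' (Ioi 0) 0)
    (hf' : 0 < f') : ∀ᶠ t in 𝓝[>] (0 : ℝ), f 0 < f t := by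
  rw [hasDerivWithinAt_iff_tendsto_slope' (by simp)] at h
  filter_upwards [h.eventually (lt_mem_nhds hf'), self_mem_nhdsWithin] with t ht ht0
  have ht0' : (0 : ℝ) < t := ht0
  rw [slope_def_field, sub_zero] at ht
  have := (div_pos_iff_of_pos_right ht0').1 ht
  linarith

/-- improving step: if the lowest and the highest height differ, they can be brought closer -/
theorem improve {e : ℕ} (he : e ≤ 1) {b : Fin (m + 1) → ℝ} (hb : Good b)
    (hmono : Monotone (HH e b))
    (hlt : HH e b 0 < HH e b (Fin.last m)) {i : Fin (m + 1)} (hS : SS e b i ≤ 0) :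
    ∃ c : Fin (m + 1) → ℝ, Good c ∧ c (Fin.last m) = b (Fin.last m) ∧ Monotone (HH e c) ∧
      SS e c i ≤ 0 ∧
      HH e b 0 * HH e c (Fin.last m) < HH e c 0 * HH e b (Fin.last m) := by
  choose τ hτ using fun k => exists_top he hb k
  have hE : ∀ k, HH e b k = EE e b (τ k) := fun k => HH_eq (hτ k)
  have hpos : ∀ k, 0 < HH e b k := fun k => by rw [hE k]; exact (hτ k).pos
  -- the rates
  have hρ : ∃ r : Fin (m + 1) → ℝ, (∀ k l, k < l → HH e b k = HH e b l → r k < r l) ∧
      0 < r 0 * HH e b (Fin.last m) - r (Fin.last m) * HH e b 0 ∧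
      (SS e b i = 0 → ∑ k, DS b (fun j => b j / (b j - τ k)) i
        / (HH e b k * lam b (τ k)) * r k < 0) := by
    by_cases hS0 : SS e b i = 0
    · obtain ⟨r, h1, h2, h3⟩ := exists_rates hmono (hpos 0) hlt
        (D := fun k => DS b (fun j => b j / (b j - τ k)) i / (HH e b k * lam b (τ k)))
        (i := i)
        (fun k hk => div_neg_of_neg_of_pos (DS_neg hb (hτ k) hS0 hk)
          (mul_pos (hpos k) (lam_pos hb (hτ k))))
        (fun k hk => div_pos (DS_pos hb (hτ k) hS0 hk)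
          (mul_pos (hpos k) (lam_pos hb (hτ k))))
      exact ⟨r, h1, h2, fun _ => h3⟩
    · obtain ⟨r, h1, h2, _⟩ := exists_rates hmono (hpos 0) hlt
        (D := fun k => if k ≤ i then -1 else 1) (i := i)
        (fun k hk => by simp [hk]) (fun k hk => by simp [not_le.2 hk])
      exact ⟨r, h1, h2, fun h => absurd h hS0⟩
  obtain ⟨r, hr1, hr2, hr3⟩ := hρ
  set ρ : Fin (m + 1) → ℝ := fun k => r k / (HH e b k * lam b (τ k)) with hρdef
  set κ : ℝ := (∑ k, ρ k * (b (Fin.last m) / (b (Fin.last m) - τ k))) / b (Fin.last m) with hκ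
  set v := dir b τ ρ κ with hv
  have hvlast : v (Fin.last m) = 0 := by
    rw [hv]
    unfold dir
    rw [hκ, div_mul_cancel₀ _ (hb.pos _).ne', sub_self]
  -- rates of the heights
  have hrate : ∀ k, HasDerivWithinAt (fun t : ℝ => HH e (b + t • v) k)
      (r k - κ * (2 * (m + 1) + e) * HH e b k) (Ioi 0) 0 := by
    intro k
    have h1 := hasDeriv_HH (v := v) hb (hτ k)
    rw [hv, rate hτ k, ← hE k] at h1
    refine h1.congr_deriv ?_
    have h2 := (hpos k).ne'
    have h3 := (lam_pos hb (hτ k)).ne'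
    simp only [hρdef]
    field_simp
  -- the heights stay monotone
  have hmono' : ∀ᶠ t in 𝓝[>] (0 : ℝ), ∀ k l, k < l → HH e (b + t • v) k < HH e (b + t • v) l ∨
      HH e (b + t • v) k ≤ HH e (b + t • v) l := by
    rw [Filter.eventually_all]
    intro k
    rw [Filter.eventually_all]
    intro l
    by_cases hkl : k < l
    · rcases eq_or_lt_of_le (hmono hkl.le) with heq | hlt'
      · have h1 := (hrate l).sub (hrate k)
        have h2 : 0 < (r l - κ * (2 * (m + 1) + e) * HH e b l)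
            - (r k - κ * (2 * (m + 1) + e) * HH e b k) := by
          rw [heq]
          have := hr1 k l hkl heq
          linarith
        have h3 := eventually_gt_of_deriv h1 h2
        filter_upwards [h3] with t ht _
        right
        simp only [Pi.sub_apply, zero_smul, add_zero, heq, sub_self] at ht
        linarith
      · have h1 : ContinuousAt (fun t : ℝ => HH e (b + t • v) l - HH e (b + t • v) k) 0 := by
          have c1 : Continuous fun t : ℝ => b + t • v := by fun_prop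
          exact (((continuous_HH e l).comp c1).sub ((continuous_HH e k).comp c1)).continuousAt
        have h2 := h1.eventually (lt_mem_nhds (a := 0) (by simpa using hlt'))
        filter_upwards [nhdsWithin_le_nhds h2] with t ht _
        left
        linarith
    · exact Filter.Eventually.of_forall fun t hh => absurd hh hkl
  -- the quotient improves
  have hquot : ∀ᶠ t in 𝓝[>] (0 : ℝ), HH e b 0 * HH e (b + t • v) (Fin.last m)
      < HH e (b + t • v) 0 * HH e b (Fin.last m) := by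
    have h1 := ((hrate 0).mul_const (HH e b (Fin.last m))).sub
      ((hrate (Fin.last m)).const_mul (HH e b 0))
    have h2 : 0 < (r 0 - κ * (2 * (m + 1) + e) * HH e b 0) * HH e b (Fin.last m)
        - HH e b 0 * (r (Fin.last m) - κ * (2 * (m + 1) + e) * HH e b (Fin.last m)) := by
      nlinarith [hr2]
    have h3 := eventually_gt_of_deriv h1 h2
    filter_upwards [h3] with t ht
    simp only [Pi.sub_apply, zero_smul, add_zero, sub_self] at ht
    linarith
  -- the constraint survives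
  have hSS : ∀ᶠ t in 𝓝[>] (0 : ℝ), SS e (b + t • v) i ≤ 0 := by
    have h1 := hasDerivAt_SS e (v := v) hb i
    rcases eq_or_lt_of_le hS with heq | hlt'
    · have h2 : DS b v i < 0 := by
        rw [hv, DS_dir]
        refine lt_of_eq_of_lt ?_ (hr3 heq)
        refine Finset.sum_congr rfl fun k _ => ?_
        simp only [hρdef]
        ring
      have h3 := eventually_gt_of_deriv h1.neg.hasDerivWithinAt (neg_pos.2 h2)
      filter_upwards [h3] with t ht
      simp only [Pi.neg_apply, zero_smul, add_zero, heq] at ht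
      linarith
    · have h0 : SS e (b + (0 : ℝ) • v) i < 0 := by simpa using hlt'
      have h2 := h1.continuousAt.eventually (gt_mem_nhds h0)
      filter_upwards [nhdsWithin_le_nhds h2] with t ht
      exact ht.le
  obtain ⟨t, ht1, ht2, ht3, ht4⟩ := (hmono'.and (hquot.and (hSS.and
    (nhdsWithin_le_nhds (eventually_good (v := v) hb))))).exists
  refine ⟨b + t • v, ht4, ?_, ?_, ht3, ht2⟩
  · simp [hvlast]
  · intro k l hkl
    rcases eq_or_lt_of_le hkl with h | h
    · rw [h]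
    · rcases ht1 k l h with h' | h'
      · exact h'.le
      · exact h'

end Pool.Agent.Helper27.CB
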