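import Mathlib

/-!
# Symmetric polynomials with real zeros: heights of the arches

`b 0 < b 1 < ...` are the squares of the positive zeros, `EE e b w = w ^ e * (∏ (w - b j)) ^ 2`.
-/

set_option autoImplicit false

open Set Filter Topology

namespace Pool.Agent.Helper27.CB

variable {m : ℕ}

/-- the square of the polynomial as a function of the square of the variable -/
def EE (e : ℕ) (b : Fin (m + 1) → ℝ) (w : ℝ) : ℝ := w ^ e * (∏ j, (w - b j)) ^ 2

/-- left end points of the arches -/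
def lo (b : Fin (m + 1) → ℝ) : Fin (m + 1) → ℝ := Fin.cons 0 fun k : Fin m => b k.castSucc

theorem lo_zero (b : Fin (m + 1) → ℝ) : lo b 0 = 0 := rfl

theorem lo_succ (b : Fin (m + 1) → ℝ) (k : Fin m) : lo b k.succ = b k.castSucc := rfl

/-- positive and strictly increasing -/
def Good (b : Fin (m + 1) → ℝ) : Prop := 0 < b 0 ∧ StrictMono b

theorem Good.pos {b : Fin (m + 1) → ℝ} (h : Good b) (j : Fin (m + 1)) : 0 < b j :=
  lt_of_lt_of_le h.1 (h.2.monotone (Fin.zero_le j))

theorem lo_nonneg {b : Fin (m + 1) → ℝ} (h : Good b) (k : Fin (m + 1)) : 0 ≤ lo b k := by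
  refine Fin.cases ?_ (fun k => ?_) k
  · exact le_of_eq (lo_zero b).symm
  · rw [lo_succ]
    exact (h.pos _).le

theorem lo_lt {b : Fin (m + 1) → ℝ} (h : Good b) (k : Fin (m + 1)) : lo b k < b k := by
  refine Fin.cases ?_ (fun k => ?_) k
  · rw [lo_zero]
    exact h.1
  · rw [lo_succ]
    exact h.2 (Fin.castSucc_lt_succ)

theorem le_lo {b : Fin (m + 1) → ℝ} (h : Good b) {j k : Fin (m + 1)} (hjk : j < k) :
    b j ≤ lo b k := by
  revert hjk
  refine Fin.cases ?_ (fun k => ?_) k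
  · intro hjk
    exact absurd hjk (Fin.not_lt_zero _)
  · intro hjk
    rw [lo_succ]
    exact h.2.monotone (Fin.le_castSucc_iff.2 hjk)

/-- the open arch (with the left end point `0` for the first one) -/
def Reg (b : Fin (m + 1) → ℝ) (k : Fin (m + 1)) (w : ℝ) : Prop :=
  0 ≤ w ∧ (∀ j, j < k → b j < w) ∧ ∀ j, k ≤ j → w < b j

theorem reg_of_mem {b : Fin (m + 1) → ℝ} (h : Good b) {k : Fin (m + 1)} {w : ℝ}
    (hw : w ∈ Ioo (lo b k) (b k)) : Reg b k w :=
  ⟨(lo_nonneg h k).trans hw.1.le, fun _ hj => (le_lo h hj).trans_lt hw.1,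
    fun _ hj => hw.2.trans_le (h.2.monotone hj)⟩

theorem Reg.ne {b : Fin (m + 1) → ℝ} {k : Fin (m + 1)} {w : ℝ} (hw : Reg b k w)
    (j : Fin (m + 1)) : w - b j ≠ 0 := by
  rcases lt_or_ge j k with h | h
  · exact (sub_pos.2 (hw.2.1 j h)).ne'
  · exact (sub_neg.2 (hw.2.2 j h)).ne

/-- `w` times the logarithmic derivative of `EE` -/
noncomputable def NN (e : ℕ) (b : Fin (m + 1) → ℝ) (w : ℝ) : ℝ := e + 2 * ∑ j, w / (w - b j)

theorem NN_anti {e : ℕ} {b : Fin (m + 1) → ℝ} (h : Good b) {k : Fin (m + 1)} {w w' : ℝ}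
    (hw : Reg b k w) (hw' : Reg b k w') (hlt : w < w') : NN e b w' < NN e b w := by
  unfold NN
  have : ∑ j, w' / (w' - b j) < ∑ j, w / (w - b j) := by
    refine Finset.sum_lt_sum_of_nonempty ⟨0, Finset.mem_univ _⟩ fun j _ => ?_
    have h1 := hw.ne j
    have h2 := hw'.ne j
    have e1 : w' / (w' - b j) - w / (w - b j)
        = -(b j * (w' - w)) / ((w' - b j) * (w - b j)) := by
      field_simp
      ring
    have h3 : 0 < (w' - b j) * (w - b j) := by
      rcases lt_or_ge j k with h | h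
      · exact mul_pos (sub_pos.2 (hw'.2.1 j h)) (sub_pos.2 (hw.2.1 j h))
      · exact mul_pos_of_neg_of_neg (sub_neg.2 (hw'.2.2 j h)) (sub_neg.2 (hw.2.2 j h))
    have h4 : -(b j * (w' - w)) / ((w' - b j) * (w - b j)) < 0 :=
      div_neg_of_neg_of_pos (neg_neg_of_pos (mul_pos (h.pos j) (sub_pos.2 hlt))) h3
    linarith
  linarith

/-- logarithmic derivative of a product along a line -/
theorem hasDerivAt_prod_line {ι : Type*} (s : Finset ι) (p q : ι → ℝ) (t : ℝ)
    (h : ∀ j ∈ s, p j + t * q j ≠ 0) :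
    HasDerivAt (fun t : ℝ => ∏ j ∈ s, (p j + t * q j))
      ((∏ j ∈ s, (p j + t * q j)) * ∑ j ∈ s, q j / (p j + t * q j)) t := by
  classical
  have h1 := HasDerivAt.fun_finsetProd (u := s) (f := fun j (t : ℝ) => p j + t * q j)
    (f' := q) (x := t) (fun j _ => by
      simpa using ((hasDerivAt_id t).mul_const (q j)).const_add (p j))
  refine h1.congr_deriv ?_
  rw [Finset.mul_sum]
  refine Finset.sum_congr rfl fun j hj => ?_
  rw [smul_eq_mul, ← Finset.mul_prod_erase s _ hj]
  have := h j hj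
  field_simp

theorem hasDerivAt_EE {e : ℕ} (he : e ≤ 1) {b : Fin (m + 1) → ℝ} {w : ℝ}
    (hw : ∀ j, w - b j ≠ 0) (hw0 : w ≠ 0) :
    HasDerivAt (EE e b) (EE e b w * NN e b w / w) w := by
  have h1 := hasDerivAt_prod_line Finset.univ (fun j => - b j) (fun _ => (1 : ℝ)) w (fun j _ => by
    have := hw j
    intro h0
    apply this
    linarith)
  have h2 : HasDerivAt (fun t : ℝ => ∏ j, (t - b j))
      ((∏ j, (w - b j)) * ∑ j, 1 / (w - b j)) w := by
    have e1 : (fun t : ℝ => ∏ j, (t - b j)) = fun t : ℝ => ∏ j, (-b j + t * 1) := by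
      funext t
      refine Finset.prod_congr rfl fun j _ => by ring
    rw [e1]
    refine h1.congr_deriv ?_
    congr 1
    · exact Finset.prod_congr rfl fun j _ => by ring
    · exact Finset.sum_congr rfl fun j _ => by
        congr 1
        ring
  have h3 := (hasDerivAt_pow e w).mul (h2.pow 2)
  have e2 : (EE e b) = (fun t : ℝ => t ^ e) * (fun t : ℝ => (∏ j, (t - b j))) ^ 2 := by
    funext t
    simp [EE]
  rw [e2]
  refine h3.congr_deriv ?_
  have e3 : ∑ j, w / (w - b j) = w * ∑ j, 1 / (w - b j) := by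
    rw [Finset.mul_sum]
    exact Finset.sum_congr rfl fun j _ => by ring
  simp only [NN, e3, Pi.mul_apply, Pi.pow_apply]
  rcases Nat.le_one_iff_eq_zero_or_eq_one.1 he with rfl | rfl
  · push_cast
    field_simp
    try ring
  · push_cast
    field_simp
    try ring

theorem continuous_EE (e : ℕ) (b : Fin (m + 1) → ℝ) : Continuous (EE e b) := by
  unfold EE
  fun_prop

theorem EE_nonneg (e : ℕ) (b : Fin (m + 1) → ℝ) {w : ℝ} (hw : 0 ≤ w) : 0 ≤ EE e b w :=
  mul_nonneg (pow_nonneg hw _) (sq_nonneg _)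

theorem EE_zero_at (e : ℕ) (b : Fin (m + 1) → ℝ) (j : Fin (m + 1)) : EE e b (b j) = 0 := by
  unfold EE
  rw [Finset.prod_eq_zero (Finset.mem_univ j) (sub_self _)]
  simp

theorem EE_pos {e : ℕ} {b : Fin (m + 1) → ℝ} {w : ℝ} (hw : 0 < w) (h : ∀ j, w - b j ≠ 0) :
    0 < EE e b w := by
  unfold EE
  have : ∏ j, (w - b j) ≠ 0 := Finset.prod_ne_zero_iff.2 fun j _ => h j
  positivity

/-- the maximum point of an arch -/
structure IsTop (e : ℕ) (b : Fin (m + 1) → ℝ) (k : Fin (m + 1)) (τ : ℝ) : Prop where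
  reg : Reg b k τ
  ge : lo b k ≤ τ
  zero : NN e b τ = 0
  pos : 0 < EE e b τ
  lt : ∀ w ∈ Icc (lo b k) (b k), w ≠ τ → EE e b w < EE e b τ

theorem exists_top {e : ℕ} (he : e ≤ 1) {b : Fin (m + 1) → ℝ} (h : Good b) (k : Fin (m + 1)) :
    ∃ τ, IsTop e b k τ := by
  obtain ⟨τ, hτ, hmax⟩ := isCompact_Icc.exists_isMaxOn (nonempty_Icc.2 (lo_lt h k).le)
    (continuous_EE e b).continuousOn
  have hmid : (lo b k + b k) / 2 ∈ Ioo (lo b k) (b k) := by
    have := lo_lt h k
    constructor <;> linarith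
  have hpos : 0 < EE e b τ := by
    have h1 : 0 < EE e b ((lo b k + b k) / 2) :=
      EE_pos (lt_of_le_of_lt (lo_nonneg h k) hmid.1) (reg_of_mem h hmid).ne
    exact h1.trans_le (hmax (Ioo_subset_Icc_self hmid))
  have hne : τ ≠ b k := by
    rintro rfl
    rw [EE_zero_at] at hpos
    exact lt_irrefl _ hpos
  have hτ2 : τ < b k := lt_of_le_of_ne hτ.2 hne
  -- interior points are critical
  have hcrit : lo b k < τ → NN e b τ = 0 := by
    intro hlt
    have hreg := reg_of_mem h ⟨hlt, hτ2⟩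
    have h0 : 0 < τ := lt_of_le_of_lt (lo_nonneg h k) hlt
    have hd := hasDerivAt_EE he hreg.ne h0.ne'
    have hloc : IsLocalMax (EE e b) τ := by
      filter_upwards [Ioo_mem_nhds hlt hτ2] with w hw
      exact hmax (Ioo_subset_Icc_self hw)
    have h1 := hloc.hasDerivAt_eq_zero hd
    rw [div_eq_zero_iff] at h1
    rcases h1 with h1 | h1
    · rcases mul_eq_zero.1 h1 with h2 | h2
      · exact absurd h2 hpos.ne'
      · exact h2
    · exact absurd h1 h0.ne'
  have hreg : Reg b k τ ∧ NN e b τ = 0 := by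
    by_cases hlt : lo b k < τ
    · exact ⟨reg_of_mem h ⟨hlt, hτ2⟩, hcrit hlt⟩
    · have heq : τ = lo b k := le_antisymm (not_lt.1 hlt) hτ.1
      rcases Fin.eq_zero_or_eq_succ k with hk | ⟨k', hk⟩
      · subst hk
        rw [lo_zero] at heq
        subst heq
        have he0 : e = 0 := by
          rcases Nat.le_one_iff_eq_zero_or_eq_one.1 he with h1 | h1
          · exact h1
          · subst h1
            simp [EE] at hpos
        refine ⟨⟨le_refl _, fun j hj => absurd hj (Fin.not_lt_zero _), fun j _ => h.pos j⟩, ?_⟩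
        subst he0
        simp [NN]
      · subst hk
        rw [heq, lo_succ, EE_zero_at] at hpos
        exact absurd hpos (lt_irrefl _)
  refine ⟨τ, hreg.1, hτ.1, hreg.2, hpos, fun w hw hwτ => ?_⟩
  rcases lt_or_gt_of_ne hwτ with hlt | hgt
  · -- strictly increasing on the left
    have hmono : StrictMonoOn (EE e b) (Icc (lo b k) τ) := by
      refine strictMonoOn_of_deriv_pos (convex_Icc _ _) (continuous_EE e b).continuousOn ?_
      intro x hx
      rw [interior_Icc] at hx
      have hxr := reg_of_mem h ⟨hx.1, hx.2.trans hτ2⟩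
      have hx0 : 0 < x := lt_of_le_of_lt (lo_nonneg h k) hx.1
      rw [(hasDerivAt_EE he hxr.ne hx0.ne').deriv]
      have h1 := NN_anti (e := e) h hxr hreg.1 hx.2
      rw [hreg.2] at h1
      exact div_pos (mul_pos (EE_pos hx0 hxr.ne) h1) hx0
    exact hmono ⟨hw.1, hlt.le⟩ ⟨hτ.1, le_refl _⟩ hlt
  · have hanti : StrictAntiOn (EE e b) (Icc τ (b k)) := by
      refine strictAntiOn_of_deriv_neg (convex_Icc _ _) (continuous_EE e b).continuousOn ?_
      intro x hx
      rw [interior_Icc] at hx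
      have hxr := reg_of_mem h ⟨hτ.1.trans_lt hx.1, hx.2⟩
      have hx0 : 0 < x := lt_of_le_of_lt ((lo_nonneg h k).trans hτ.1) hx.1
      rw [(hasDerivAt_EE he hxr.ne hx0.ne').deriv]
      have h1 := NN_anti (e := e) h hreg.1 hxr hx.1
      rw [hreg.2] at h1
      exact div_neg_of_neg_of_pos (mul_neg_of_pos_of_neg (EE_pos hx0 hxr.ne) h1) hx0
    exact hanti ⟨le_refl _, hτ.2⟩ ⟨hgt.le, hw.2⟩ hgt

end Pool.Agent.Helper27.CB
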