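import Pool.Agent.Helper27.CB.Alg

/-!
# Equal heights: the Chebyshev case, and the identity for the second derivative
-/

set_option autoImplicit false

open Set Filter Topology Polynomial

namespace Pool.Agent.Helper27.CB

variable {m : ℕ}

/-- the polynomial in the squared variable -/
noncomputable def RR (b : Fin (m + 1) → ℝ) : ℝ[X] := ∏ j, (X - C (b j))

theorem RR_eval (b : Fin (m + 1) → ℝ) (w : ℝ) : (RR b).eval w = ∏ j, (w - b j) := by
  unfold RR
  rw [eval_prod]
  simp

theorem RR_monic (b : Fin (m + 1) → ℝ) : (RR b).Monic := monic_prod_X_sub_C _ _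

theorem RR_natDegree (b : Fin (m + 1) → ℝ) : (RR b).natDegree = m + 1 := by
  unfold RR
  rw [natDegree_finsetProd_X_sub_C_eq_card]
  simp

theorem RR_deriv_eval {b : Fin (m + 1) → ℝ} {w : ℝ} (hw : ∀ j, w - b j ≠ 0) :
    (RR b).derivative.eval w = (RR b).eval w * ∑ j, 1 / (w - b j) := by
  have h1 := hasDerivAt_prod_line Finset.univ (fun j => - b j) (fun _ => (1 : ℝ)) w (fun j _ => by
    have := hw j
    intro h0
    apply this
    linarith)
  have h2 : HasDerivAt (fun t : ℝ => ∏ j, (t - b j))
      ((∏ j, (w - b j)) * ∑ j, 1 / (w - b j)) w := by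
    have e1 : (fun t : ℝ => ∏ j, (t - b j)) = fun t : ℝ => ∏ j, (-b j + t * 1) := by
      funext t
      refine Finset.prod_congr rfl fun j _ => by ring
    rw [e1]
    refine h1.congr_deriv ?_
    congr 1
    · exact Finset.prod_congr rfl fun j _ => by ring
    · exact Finset.sum_congr rfl fun j _ => by
        congr 1
        ring
  have h3 := (RR b).hasDerivAt w
  have e2 : (fun x => (RR b).eval x) = fun t : ℝ => ∏ j, (t - b j) := by
    funext t
    exact RR_eval b t
  rw [e2] at h3
  rw [h3.unique h2, RR_eval]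

/-- the product over the other zeros -/
noncomputable def RI (b : Fin (m + 1) → ℝ) (i : Fin (m + 1)) : ℝ[X] :=
  ∏ j ∈ Finset.univ.erase i, (X - C (b j))

theorem RR_split (b : Fin (m + 1) → ℝ) (i : Fin (m + 1)) : RR b = (X - C (b i)) * RI b i := by
  unfold RR RI
  exact (Finset.mul_prod_erase Finset.univ (fun j => (X - C (b j) : ℝ[X]))
    (Finset.mem_univ i)).symm

theorem RI_eval (b : Fin (m + 1) → ℝ) (i : Fin (m + 1)) (w : ℝ) :
    (RI b i).eval w = ∏ j ∈ Finset.univ.erase i, (w - b j) := by
  unfold RI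
  rw [eval_prod]
  simp

theorem RI_ne {b : Fin (m + 1) → ℝ} (hb : Good b) (i : Fin (m + 1)) :
    (RI b i).eval (b i) ≠ 0 := by
  rw [RI_eval]
  exact Finset.prod_ne_zero_iff.2 fun j hj => hb.ne (Finset.ne_of_mem_erase hj)

theorem RR_deriv_at (b : Fin (m + 1) → ℝ) (i : Fin (m + 1)) :
    (RR b).derivative.eval (b i) = (RI b i).eval (b i) := by
  rw [RR_split b i]
  simp [derivative_mul]

theorem RR_deriv2_at {b : Fin (m + 1) → ℝ} (hb : Good b) (i : Fin (m + 1)) :
    (RR b).derivative.derivative.eval (b i)
      = 2 * (RI b i).eval (b i) * ∑ j ∈ Finset.univ.erase i, 1 / (b i - b j) := by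
  have h0 : (RI b i).derivative.eval (b i)
      = (RI b i).eval (b i) * ∑ j ∈ Finset.univ.erase i, 1 / (b i - b j) := by
    have h1 := hasDerivAt_prod_line (Finset.univ.erase i) (fun j => - b j) (fun _ => (1 : ℝ)) (b i)
      (fun j hj => by
        have := hb.ne (Finset.ne_of_mem_erase hj)
        intro h0
        apply this
        linarith)
    have h3 := (RI b i).hasDerivAt (b i)
    have e2 : (fun x => (RI b i).eval x)
        = fun t : ℝ => ∏ j ∈ Finset.univ.erase i, (-b j + t * 1) := by
      funext t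
      rw [RI_eval]
      refine Finset.prod_congr rfl fun j _ => by ring
    rw [e2] at h3
    rw [h3.unique h1, RI_eval]
    congr 1
    · exact Finset.prod_congr rfl fun j _ => by ring
    · exact Finset.sum_congr rfl fun j _ => by
        congr 1
        ring
  rw [RR_split b i]
  simp only [derivative_mul, derivative_sub, derivative_X, derivative_C, sub_zero, one_mul,
    derivative_add, eval_add, eval_mul, eval_sub, eval_X, eval_C, sub_self, zero_mul, add_zero]
  rw [h0]
  ring

/-- the polynomial whose zeros are the critical points -/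
noncomputable def CP (e : ℕ) (b : Fin (m + 1) → ℝ) : ℝ[X] :=
  C (e : ℝ) * RR b + C 2 * (X * (RR b).derivative)

theorem CP_eval_top {e : ℕ} {b : Fin (m + 1) → ℝ} {k : Fin (m + 1)} {τ : ℝ}
    (hτ : IsTop e b k τ) : (CP e b).eval τ = 0 := by
  unfold CP
  simp only [eval_add, eval_mul, eval_C, eval_X]
  rw [RR_deriv_eval hτ.reg.ne]
  have h := hτ.zero
  unfold NN at h
  have h1 : ∑ j, τ / (τ - b j) = τ * ∑ j, 1 / (τ - b j) := by
    rw [Finset.mul_sum]
    exact Finset.sum_congr rfl fun j _ => by ring
  rw [h1] at h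
  linear_combination (RR b).eval τ * h

theorem CP_coeff (e : ℕ) (b : Fin (m + 1) → ℝ) (k : ℕ) :
    (CP e b).coeff (k + 1) = ((e : ℝ) + 2 * (k + 1)) * (RR b).coeff (k + 1) := by
  unfold CP
  rw [coeff_add, coeff_C_mul, coeff_C_mul, coeff_X_mul, coeff_derivative]
  ring

theorem CP_eq {e : ℕ} {b τ : Fin (m + 1) → ℝ} (hτ : ∀ k, IsTop e b k (τ k)) :
    CP e b = C ((e : ℝ) + 2 * (m + 1)) * RR τ := by
  refine Polynomial.eq_of_degree_sub_lt_of_eval_index_eq (v := τ) Finset.univ ?_ ?_ ?_
  · intro k _ l _ hkl
    by_contra hne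
    exact tops_ne (hτ k) (hτ l) hne hkl
  · rw [Finset.card_univ, Fintype.card_fin, degree_lt_iff_coeff_zero]
    intro k hk
    obtain ⟨k, rfl⟩ : ∃ k', k = k' + 1 := ⟨k - 1, by omega⟩
    rw [coeff_sub, CP_coeff, coeff_C_mul]
    rcases eq_or_lt_of_le hk with h | h
    · have h1 : (RR b).coeff (k + 1) = 1 := by
        rw [← h, ← RR_natDegree b]
        exact RR_monic b
      have h2 : (RR τ).coeff (k + 1) = 1 := by
        rw [← h, ← RR_natDegree τ]
        exact RR_monic τ
      have h3 : m = k := by omega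
      rw [h1, h2, h3]
      ring
    · rw [coeff_eq_zero_of_natDegree_lt (by rw [RR_natDegree]; exact h),
        coeff_eq_zero_of_natDegree_lt (by rw [RR_natDegree]; exact h)]
      ring
  · intro k _
    rw [CP_eval_top (hτ k), eval_mul, RR_eval, Finset.prod_eq_zero (Finset.mem_univ k) (sub_self _),
      mul_zero]

theorem sq_dvd_of {p : ℝ[X]} {a : ℝ} (h1 : p.eval a = 0) (h2 : p.derivative.eval a = 0) :
    (X - C a) ^ 2 ∣ p := by
  obtain ⟨q, rfl⟩ := dvd_iff_isRoot.2 h1
  have h3 : q.eval a = 0 := by
    simpa [derivative_mul] using h2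
  obtain ⟨r, rfl⟩ := dvd_iff_isRoot.2 h3
  exact ⟨r, by ring⟩

theorem RR_sq_dvd {τ : Fin (m + 1) → ℝ} (hinj : Function.Injective τ) {p : ℝ[X]}
    (h1 : ∀ k, p.eval (τ k) = 0) (h2 : ∀ k, p.derivative.eval (τ k) = 0) :
    RR τ ^ 2 ∣ p := by
  unfold RR
  rw [← Finset.prod_pow]
  refine Finset.prod_dvd_of_coprime ?_ fun k _ => sq_dvd_of (h1 k) (h2 k)
  intro k _ l _ hkl
  refine IsCoprime.pow ?_
  exact isCoprime_X_sub_C_of_isUnit_sub (sub_ne_zero.2 fun h => hkl (hinj h)).isUnit

/-- leading coefficient of a product formula with linear cofactor -/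
theorem cofactor {τ : Fin (m + 1) → ℝ} {A : ℝ[X]} (hdvd : RR τ ^ 2 ∣ A)
    (hdeg : A.natDegree = 2 * m + 3) (hlead : A.leadingCoeff = -1) :
    ∃ L : ℝ, A = RR τ ^ 2 * (C L - X) := by
  obtain ⟨U, hU⟩ := hdvd
  have hmon : (RR τ ^ 2).Monic := (RR_monic τ).pow 2
  have hU0 : U ≠ 0 := by
    rintro rfl
    rw [mul_zero] at hU
    rw [hU] at hlead
    simp at hlead
  have h1 : (RR τ ^ 2).natDegree = 2 * m + 2 := by
    rw [(RR_monic τ).natDegree_pow, RR_natDegree]
    ring
  have h2 : U.natDegree = 1 := by
    have := hmon.natDegree_mul' hU0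
    rw [← hU, hdeg, h1] at this
    omega
  have h3 : U.leadingCoeff = -1 := by
    rw [hU, leadingCoeff_mul, hmon.leadingCoeff, one_mul] at hlead
    exact hlead
  have h4 : U.coeff 1 = -1 := by
    rw [← h3, leadingCoeff, h2]
  refine ⟨U.coeff 0, ?_⟩
  rw [hU]
  congr 1
  rw [eq_X_add_C_of_natDegree_le_one h2.le, h4]
  simp
  ring

/-- equal heights force positive coefficient quantities -/
theorem cheb_pos {e : ℕ} (he : e ≤ 1) {b : Fin (m + 1) → ℝ} (hb : Good b)
    (hall : ∀ k, HH e b k = HH e b 0) (i : Fin (m + 1)) : 0 < SS e b i := by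
  choose τ hτ using fun k => exists_top he hb k
  set H := HH e b 0 with hH
  have hE : ∀ k, EE e b (τ k) = H := fun k => by rw [← HH_eq (hτ k), hall k]
  have hHpos : 0 < H := by rw [← hE 0]; exact (hτ 0).pos
  have hinj : Function.Injective τ := by
    intro k l hkl
    by_contra hne
    exact tops_ne (hτ k) (hτ l) hne hkl
  have hEE : ∀ w, EE e b w = w ^ e * (RR b).eval w ^ 2 := fun w => by rw [RR_eval]; rfl
  have hcp := CP_eq hτ
  have hbi := hb.pos i
  have hρ := RI_ne hb i
  -- the polynomial with double zeros at the maximum points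
  obtain ⟨A, hA1, hA2, hA3, hA4, hA5, hA6⟩ : ∃ A : ℝ[X], (∀ k, A.eval (τ k) = 0) ∧
      (∀ k, A.derivative.eval (τ k) = 0) ∧ A.natDegree = 2 * m + 3 ∧ A.leadingCoeff = -1 ∧
      0 < A.eval (b i) ∧ b i * A.derivative.eval (b i) = (1 - e) * A.eval (b i) := by
    have hRbi : (RR b).eval (b i) = 0 := by
      rw [RR_eval, Finset.prod_eq_zero (Finset.mem_univ i) (sub_self _)]
    have hmon2 : (RR b ^ 2).Monic := (RR_monic b).pow 2
    have hdeg2 : (RR b ^ 2).natDegree = 2 * m + 2 := by
      rw [(RR_monic b).natDegree_pow, RR_natDegree]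
      ring
    rcases Nat.le_one_iff_eq_zero_or_eq_one.1 he with rfl | rfl
    · -- even case
      have hmonX : (X * RR b ^ 2).Monic := monic_X.mul hmon2
      have hdegX : (X * RR b ^ 2).natDegree = 2 * m + 3 := by
        rw [natDegree_X_mul hmon2.ne_zero, hdeg2]
      have hform : (X * (C H - RR b ^ 2) : ℝ[X]) = -(X * RR b ^ 2 - C H * X) := by ring
      have hlt : (C H * X : ℝ[X]).degree < (X * RR b ^ 2 : ℝ[X]).degree := by
        refine lt_of_le_of_lt (degree_C_mul_X_le H) ?_
        rw [degree_eq_natDegree hmonX.ne_zero, hdegX]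
        exact_mod_cast (by omega : 1 < 2 * m + 3)
      refine ⟨X * (C H - RR b ^ 2), ?_, ?_, ?_, ?_, ?_, ?_⟩
      · intro k
        have := hE k
        rw [hEE] at this
        simp only [eval_mul, eval_X, eval_sub, eval_C, eval_pow]
        simp only [pow_zero, one_mul] at this
        rw [this]
        ring
      · intro k
        have h1 := hE k
        rw [hEE] at h1
        simp only [pow_zero, one_mul] at h1
        have h2 := CP_eval_top (hτ k)
        unfold CP at h2
        simp only [eval_add, eval_mul, eval_C, eval_X, Nat.cast_zero, zero_mul, zero_add] at h2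
        simp only [derivative_mul, derivative_sub, derivative_X, derivative_C, derivative_pow,
          eval_mul, eval_X, eval_sub, eval_C, eval_pow, eval_add, one_mul, eval_zero]
        norm_num
        linear_combination -h1 - (RR b).eval (τ k) * h2
      · rw [hform, natDegree_neg, natDegree_sub_eq_left_of_natDegree_lt, hdegX]
        exact natDegree_lt_natDegree (fun h => by simp [hHpos.ne'] at h) hlt
      · rw [hform, leadingCoeff_neg, leadingCoeff_sub_of_degree_lt hlt, hmonX.leadingCoeff]
      · simp only [eval_mul, eval_X, eval_sub, eval_C, eval_pow, hRbi]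
        norm_num
        positivity
      · simp only [derivative_mul, derivative_sub, derivative_X, derivative_C, derivative_pow,
          eval_mul, eval_X, eval_sub, eval_C, eval_pow, eval_add, one_mul, hRbi, eval_zero]
        norm_num
    · -- odd case
      have hmonX : (X * RR b ^ 2).Monic := monic_X.mul hmon2
      have hdegX : (X * RR b ^ 2).natDegree = 2 * m + 3 := by
        rw [natDegree_X_mul hmon2.ne_zero, hdeg2]
      have hform : (C H - X * RR b ^ 2 : ℝ[X]) = -(X * RR b ^ 2 - C H) := by ring
      have hlt : (C H : ℝ[X]).degree < (X * RR b ^ 2 : ℝ[X]).degree := by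
        refine lt_of_le_of_lt degree_C_le ?_
        rw [degree_eq_natDegree hmonX.ne_zero, hdegX]
        exact_mod_cast (by omega : 0 < 2 * m + 3)
      refine ⟨C H - X * RR b ^ 2, ?_, ?_, ?_, ?_, ?_, ?_⟩
      · intro k
        have := hE k
        rw [hEE] at this
        simp only [eval_mul, eval_X, eval_sub, eval_C, eval_pow]
        simp only [pow_one] at this
        rw [this]
        ring
      · intro k
        have h2 := CP_eval_top (hτ k)
        unfold CP at h2
        simp only [eval_add, eval_mul, eval_C, eval_X, Nat.cast_one, one_mul] at h2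
        simp only [derivative_mul, derivative_sub, derivative_X, derivative_C, derivative_pow,
          eval_mul, eval_X, eval_sub, eval_C, eval_pow, eval_add, one_mul, eval_zero]
        norm_num
        linear_combination - (RR b).eval (τ k) * h2
      · rw [hform, natDegree_neg, natDegree_sub_C, hdegX]
      · rw [hform, leadingCoeff_neg, leadingCoeff_sub_of_degree_lt hlt, hmonX.leadingCoeff]
      · simp only [eval_mul, eval_X, eval_sub, eval_C, eval_pow, hRbi]
        norm_num
        positivity
      · simp only [derivative_mul, derivative_sub, derivative_X, derivative_C, derivative_pow,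
          eval_mul, eval_X, eval_sub, eval_C, eval_pow, eval_add, one_mul, hRbi, eval_zero]
        norm_num
  obtain ⟨L, hL⟩ := cofactor (RR_sq_dvd hinj hA1 hA2) hA3 hA4
  set T := (RR τ).eval (b i) with hT
  set T' := (RR τ).derivative.eval (b i) with hT'
  have v1 : A.eval (b i) = T ^ 2 * (L - b i) := by
    rw [hL, hT, eval_mul, eval_pow, eval_sub, eval_C, eval_X]
  have v2 : A.derivative.eval (b i) = 2 * T * T' * (L - b i) - T ^ 2 := by
    rw [hL]
    simp only [derivative_mul, derivative_pow, derivative_sub, derivative_C, derivative_X,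
      eval_add, eval_mul, eval_pow, eval_sub, eval_C, eval_X, eval_zero, eval_one]
    norm_num
    ring
  have hTne : T ≠ 0 := by
    intro h
    rw [v1, h] at hA5
    simp at hA5
  have hLpos : 0 < L - b i := by
    rw [v1] at hA5
    have : 0 < T ^ 2 := by positivity
    exact (pos_iff_pos_of_mul_pos hA5).1 this
  have w1 : 2 * b i * (RI b i).eval (b i) = ((e : ℝ) + 2 * (m + 1)) * T := by
    have := congrArg (fun p => p.eval (b i)) hcp
    simp only [CP, eval_add, eval_mul, eval_C, eval_X] at this
    rw [RR_deriv_at, RR_eval b (b i), Finset.prod_eq_zero (Finset.mem_univ i) (sub_self _)] at this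
    rw [hT, ← this]
    ring
  set σ := ∑ j ∈ Finset.univ.erase i, 1 / (b i - b j) with hσ
  have w2 : ((e : ℝ) + 2) * (RI b i).eval (b i) + 4 * b i * (RI b i).eval (b i) * σ
      = ((e : ℝ) + 2 * (m + 1)) * T' := by
    have := congrArg (fun p => p.derivative.eval (b i)) hcp
    simp only [CP, derivative_add, derivative_mul, derivative_C, derivative_X, zero_mul, zero_add,
      one_mul, eval_add, eval_mul, eval_C, eval_X] at this
    rw [RR_deriv_at, RR_deriv2_at hb] at this
    rw [hT', ← this]
    ring
  have hSS : SS e b i = (2 * e + 1) + 4 * (b i * σ) := by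
    have h1 : ∑ j ∈ Finset.univ.erase i, b i / (b i - b j) = b i * σ := by
      rw [hσ, Finset.mul_sum]
      exact Finset.sum_congr rfl fun j _ => by ring
    unfold SS
    rw [h1]
  -- elimination
  have hn : (0 : ℝ) < (e : ℝ) + 2 * (m + 1) := by positivity
  have key : SS e b i * (L - b i) = b i := by
    rw [v1, v2] at hA6
    have h1 : 2 * b i * T' = ((e : ℝ) + 2 + 4 * b i * σ) * T := by
      have : ((e : ℝ) + 2 * (m + 1)) * (2 * b i * T')
          = ((e : ℝ) + 2 * (m + 1)) * (((e : ℝ) + 2 + 4 * b i * σ) * T) := by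
        linear_combination -2 * b i * w2 + ((e : ℝ) + 2 + 4 * b i * σ) * w1
      exact mul_left_cancel₀ hn.ne' this
    have h2 : T ^ 2 * (SS e b i * (L - b i)) = T ^ 2 * b i := by
      rw [hSS]
      linear_combination hA6 - T * (L - b i) * h1
    exact mul_left_cancel₀ (pow_ne_zero 2 hTne) h2
  by_contra hle
  have := mul_nonpos_of_nonpos_of_nonneg (not_lt.1 hle) hLpos.le
  linarith

end Pool.Agent.Helper27.CB
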