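import Pool.Agent.Helper27.CB.Basic

/-!
# Directional derivatives of the heights of the arches
-/

set_option autoImplicit false

open Set Filter Topology

namespace Pool.Agent.Helper27.CB

variable {m : ℕ}

/-- the height of an arch (of the squared polynomial) -/
noncomputable def HH (e : ℕ) (b : Fin (m + 1) → ℝ) (k : Fin (m + 1)) : ℝ :=
  sSup ((fun s : ℝ => EE e b (lo b k + s * (b k - lo b k))) '' Icc 0 1)

theorem continuous_lo (k : Fin (m + 1)) :
    Continuous fun b : Fin (m + 1) → ℝ => lo b k := by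
  refine Fin.cases ?_ (fun k => ?_) k
  · simp only [lo_zero]
    exact continuous_const
  · simp only [lo_succ]
    exact continuous_apply _

theorem continuous_EE_arch (e : ℕ) (k : Fin (m + 1)) :
    Continuous fun p : (Fin (m + 1) → ℝ) × ℝ =>
      EE e p.1 (lo p.1 k + p.2 * (p.1 k - lo p.1 k)) := by
  have h1 := continuous_lo k
  have h2 : Continuous fun p : (Fin (m + 1) → ℝ) × ℝ => lo p.1 k := h1.comp continuous_fst
  have h3 : Continuous fun p : (Fin (m + 1) → ℝ) × ℝ => lo p.1 k + p.2 * (p.1 k - lo p.1 k) := by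
    fun_prop
  unfold EE
  refine (h3.pow e).mul (Continuous.pow ?_ 2)
  refine continuous_finsetProd _ fun j _ => h3.sub ?_
  fun_prop

theorem continuous_HH (e : ℕ) (k : Fin (m + 1)) :
    Continuous fun b : Fin (m + 1) → ℝ => HH e b k := by
  unfold HH
  exact IsCompact.continuous_sSup (f := fun (b : Fin (m + 1) → ℝ) (s : ℝ) =>
    EE e b (lo b k + s * (b k - lo b k))) isCompact_Icc (continuous_EE_arch e k)

theorem bdd_arch (e : ℕ) (b : Fin (m + 1) → ℝ) (k : Fin (m + 1)) :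
    BddAbove ((fun s : ℝ => EE e b (lo b k + s * (b k - lo b k))) '' Icc 0 1) := by
  refine (isCompact_Icc.image ?_).bddAbove
  exact (continuous_EE e b).comp (by fun_prop)

theorem le_HH (e : ℕ) {b : Fin (m + 1) → ℝ} {k : Fin (m + 1)} {w : ℝ}
    (hw : w ∈ Icc (lo b k) (b k)) : EE e b w ≤ HH e b k := by
  refine le_csSup (bdd_arch e b k) ?_
  rcases eq_or_lt_of_le (hw.1.trans hw.2) with h | h
  · refine ⟨0, ⟨le_refl _, zero_le_one⟩, ?_⟩
    have : w = lo b k := le_antisymm (by rw [h]; exact hw.2) hw.1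
    simp [this]
  · refine ⟨(w - lo b k) / (b k - lo b k), ⟨?_, ?_⟩, ?_⟩
    · exact div_nonneg (sub_nonneg.2 hw.1) (sub_pos.2 h).le
    · rw [div_le_one (sub_pos.2 h)]
      linarith [hw.2]
    · have h0 : b k - lo b k ≠ 0 := (sub_pos.2 h).ne'
      simp only
      rw [div_mul_cancel₀ _ h0]
      congr 1
      ring

theorem HH_le {e : ℕ} {b : Fin (m + 1) → ℝ} {k : Fin (m + 1)} {C : ℝ} (hlo : lo b k ≤ b k)
    (h : ∀ w ∈ Icc (lo b k) (b k), EE e b w ≤ C) : HH e b k ≤ C := by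
  refine csSup_le ⟨_, 0, ⟨le_refl _, zero_le_one⟩, rfl⟩ ?_
  rintro _ ⟨s, hs, rfl⟩
  refine h _ ⟨?_, ?_⟩
  · have := mul_nonneg hs.1 (sub_nonneg.2 hlo)
    linarith
  · have := mul_le_mul_of_nonneg_right hs.2 (sub_nonneg.2 hlo)
    linarith

theorem IsTop.mem {e : ℕ} {b : Fin (m + 1) → ℝ} {k : Fin (m + 1)} {τ : ℝ}
    (hτ : IsTop e b k τ) : τ ∈ Icc (lo b k) (b k) := ⟨hτ.ge, (hτ.reg.2.2 k le_rfl).le⟩

theorem HH_eq {e : ℕ} {b : Fin (m + 1) → ℝ} {k : Fin (m + 1)} {τ : ℝ}
    (hτ : IsTop e b k τ) : HH e b k = EE e b τ := by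
  refine le_antisymm (HH_le (hτ.mem.1.trans hτ.mem.2) fun w hw => ?_) (le_HH e hτ.mem)
  by_cases h : w = τ
  · rw [h]
  · exact (hτ.lt w hw h).le

/-- `EE` along a line in the space of squared zeros -/
def FF (e : ℕ) (b v : Fin (m + 1) → ℝ) (t w : ℝ) : ℝ := EE e (b + t • v) w

/-- the formula for its derivative -/
noncomputable def GG (e : ℕ) (b v : Fin (m + 1) → ℝ) (t w : ℝ) : ℝ :=
  w ^ e * ((∏ j, ((w - b j) + t * (-v j))) ^ 2 *
    (2 * ∑ j, (-v j) / ((w - b j) + t * (-v j))))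

theorem FF_eq (e : ℕ) (b v : Fin (m + 1) → ℝ) (t w : ℝ) :
    FF e b v t w = w ^ e * (∏ j, ((w - b j) + t * (-v j))) ^ 2 := by
  unfold FF EE
  congr 2
  refine Finset.prod_congr rfl fun j _ => ?_
  simp only [Pi.add_apply, Pi.smul_apply, smul_eq_mul]
  ring

theorem hasDerivAt_FF {e : ℕ} {b v : Fin (m + 1) → ℝ} {t w : ℝ}
    (h : ∀ j, (w - b j) + t * (-v j) ≠ 0) :
    HasDerivAt (fun t => FF e b v t w) (GG e b v t w) t := by
  have h1 := hasDerivAt_prod_line Finset.univ (fun j => w - b j) (fun j => -v j) t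
    (fun j _ => h j)
  have h2 := (h1.pow 2).const_mul (w ^ e)
  have e1 : (fun t => FF e b v t w)
      = fun t => w ^ e * ((fun t : ℝ => ∏ j, ((w - b j) + t * (-v j))) ^ 2) t := by
    funext t
    rw [FF_eq]
    rfl
  rw [e1]
  refine h2.congr_deriv ?_
  unfold GG
  push_cast
  ring

theorem continuousAt_GG {e : ℕ} {b v : Fin (m + 1) → ℝ} {τ : ℝ}
    (h : ∀ j, τ - b j ≠ 0) :
    ContinuousAt (fun p : ℝ × ℝ => GG e b v p.1 p.2) (0, τ) := by
  unfold GG
  refine ContinuousAt.mul (by fun_prop) (ContinuousAt.mul (by fun_prop) ?_)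
  refine ContinuousAt.mul continuousAt_const ?_
  refine tendsto_finsetSum _ fun j _ => ?_
  refine ContinuousAt.div (by fun_prop) (by fun_prop) ?_
  simpa using h j

theorem local_estimate {e : ℕ} {b v : Fin (m + 1) → ℝ} {τ : ℝ}
    (h : ∀ j, τ - b j ≠ 0) {η : ℝ} (hη : 0 < η) :
    ∀ᶠ p : ℝ × ℝ in 𝓝 (0, τ), 0 < p.1 →
      |FF e b v p.1 p.2 - FF e b v 0 p.2 - p.1 * GG e b v 0 τ| ≤ p.1 * η := by
  have h1 : ∀ᶠ p : ℝ × ℝ in 𝓝 (0, τ), |GG e b v p.1 p.2 - GG e b v 0 τ| < η := by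
    have := (continuousAt_GG (e := e) (b := b) (v := v) h).eventually (Metric.ball_mem_nhds _ hη)
    filter_upwards [this] with p hp
    simpa [Real.dist_eq] using hp
  have h2 : ∀ᶠ p : ℝ × ℝ in 𝓝 (0, τ), ∀ j, (p.2 - b j) + p.1 * (-v j) ≠ 0 := by
    rw [Filter.eventually_all]
    intro j
    have hc : ContinuousAt (fun p : ℝ × ℝ => (p.2 - b j) + p.1 * (-v j)) (0, τ) := by fun_prop
    have : (fun p : ℝ × ℝ => (p.2 - b j) + p.1 * (-v j)) (0, τ) ≠ 0 := by simpa using h j
    exact hc.eventually_ne this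
  obtain ⟨δ, hδ, hball⟩ := Metric.eventually_nhds_iff.1 (h1.and h2)
  refine Metric.eventually_nhds_iff.2 ⟨δ, hδ, fun p hp ht => ?_⟩
  have hin : ∀ c ∈ Icc (0 : ℝ) p.1, dist (c, p.2) ((0 : ℝ), τ) < δ := by
    intro c hc
    refine lt_of_le_of_lt ?_ hp
    rw [Prod.dist_eq, Prod.dist_eq]
    refine max_le_max ?_ le_rfl
    simp only [Real.dist_eq, sub_zero]
    rw [abs_of_nonneg hc.1, abs_of_pos ht]
    exact hc.2
  have hd : ∀ c ∈ Icc (0 : ℝ) p.1, HasDerivAt (fun t => FF e b v t p.2) (GG e b v c p.2) c :=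
    fun c hc => hasDerivAt_FF (hball (hin c hc)).2
  obtain ⟨c, hc, hcs⟩ := exists_hasDerivAt_eq_slope (fun t => FF e b v t p.2)
    (fun c => GG e b v c p.2) ht
    (fun c hc => (hd c hc).continuousAt.continuousWithinAt)
    (fun c hc => hd c (Ioo_subset_Icc_self hc))
  have h3 := (hball (hin c (Ioo_subset_Icc_self hc))).1
  simp only at h3 hcs
  rw [hcs, sub_zero] at h3
  have e1 : FF e b v p.1 p.2 - FF e b v 0 p.2 - p.1 * GG e b v 0 τ
      = p.1 * ((FF e b v p.1 p.2 - FF e b v 0 p.2) / p.1 - GG e b v 0 τ) := by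
    field_simp
  rw [e1, abs_mul, abs_of_pos ht]
  exact mul_le_mul_of_nonneg_left h3.le ht.le

theorem GG_zero {e : ℕ} {b v : Fin (m + 1) → ℝ} {τ : ℝ} :
    GG e b v 0 τ = EE e b τ * (2 * ∑ j, v j / (b j - τ)) := by
  have h : ∑ j, (-v j) / (τ - b j) = ∑ j, v j / (b j - τ) :=
    Finset.sum_congr rfl fun j _ => by rw [← neg_sub (b j) τ, neg_div_neg_eq]
  unfold GG EE
  simp only [zero_mul, add_zero]
  rw [h]
  ring

theorem lo_line (b v : Fin (m + 1) → ℝ) (t : ℝ) (k : Fin (m + 1)) :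
    lo (b + t • v) k = lo b k + t * lo v k := by
  refine Fin.cases ?_ (fun k => ?_) k
  · simp [lo_zero]
  · simp [lo_succ]

theorem eventually_good {b v : Fin (m + 1) → ℝ} (h : Good b) :
    ∀ᶠ t in 𝓝 (0 : ℝ), Good (b + t • v) := by
  have h1 : ∀ᶠ t in 𝓝 (0 : ℝ), 0 < (b + t • v) 0 := by
    have hc : ContinuousAt (fun t : ℝ => (b + t • v) 0) 0 := by
      simp only [Pi.add_apply, Pi.smul_apply, smul_eq_mul]
      fun_prop
    refine hc.eventually (lt_mem_nhds ?_)
    simpa using h.1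
  have h2 : ∀ᶠ t in 𝓝 (0 : ℝ), ∀ i j : Fin (m + 1), i < j → (b + t • v) i < (b + t • v) j := by
    rw [Filter.eventually_all]
    intro i
    rw [Filter.eventually_all]
    intro j
    by_cases hij : i < j
    · have hc : ContinuousAt (fun t : ℝ => (b + t • v) j - (b + t • v) i) 0 := by
        simp only [Pi.add_apply, Pi.smul_apply, smul_eq_mul]
        fun_prop
      have := hc.eventually (lt_mem_nhds (a := 0) (by simpa using h.2 hij))
      filter_upwards [this] with t ht _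
      linarith
    · exact Filter.Eventually.of_forall fun t hh => absurd hh hij
  filter_upwards [h1, h2] with t ht1 ht2
  exact ⟨ht1, fun i j hij => ht2 i j hij⟩

/-- upper bound in Danskin's formula -/
theorem danskin_upper {e : ℕ} {b v : Fin (m + 1) → ℝ} (hb : Good b) {k : Fin (m + 1)} {τ : ℝ}
    (hτ : IsTop e b k τ) {η : ℝ} (hη : 0 < η) :
    ∀ᶠ t in 𝓝 (0 : ℝ), 0 < t →
      HH e (b + t • v) k ≤ EE e b τ + t * (GG e b v 0 τ + η) := by
  set W : ℝ × ℝ → ℝ := fun q =>
    lo (b + q.1 • v) k + q.2 * ((b + q.1 • v) k - lo (b + q.1 • v) k) with hW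
  have hWc : Continuous W := by
    simp only [hW, lo_line, Pi.add_apply, Pi.smul_apply, smul_eq_mul]
    fun_prop
  have key : ∀ᶠ t in 𝓝 (0 : ℝ), ∀ s ∈ Icc (0 : ℝ) 1, s ∈ Icc (0 : ℝ) 1 → Good (b + t • v) → 0 < t →
      FF e b v t (W (t, s)) ≤ EE e b τ + t * (GG e b v 0 τ + η) := by
    refine isCompact_Icc.eventually_forall_of_forall_eventually fun s₁ hs₁ => ?_
    by_cases hs : W (0, s₁) = τ
    · -- near the maximum point
      have h1 : Tendsto (fun q : ℝ × ℝ => (q.1, W q)) (𝓝 (0, s₁)) (𝓝 (0, τ)) := by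
        have : Continuous fun q : ℝ × ℝ => (q.1, W q) := by fun_prop
        have h2 := this.tendsto (0, s₁)
        simp only [hs] at h2
        exact h2
      have h2 := h1.eventually (local_estimate (e := e) (b := b) (v := v) hτ.reg.ne hη)
      have h3 : ∀ᶠ q : ℝ × ℝ in 𝓝 (0, s₁), W q < b k :=
        hWc.continuousAt.eventually (gt_mem_nhds (by rw [hs]; exact hτ.reg.2.2 k le_rfl))
      have h4 : ∀ᶠ q : ℝ × ℝ in 𝓝 (0, s₁), q.2 ∈ Icc (0 : ℝ) 1 → Good (b + q.1 • v) →
          lo b k ≤ W q := by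
        rcases Fin.eq_zero_or_eq_succ k with hk | ⟨k', hk⟩
        · subst hk
          refine Filter.Eventually.of_forall fun q hq hg => ?_
          simp only [hW, lo_zero]
          have := mul_nonneg hq.1 (hg.pos 0).le
          linarith
        · subst hk
          have hlt : lo b k'.succ < τ := by
            rw [lo_succ]
            exact hτ.reg.2.1 _ Fin.castSucc_lt_succ
          have : ∀ᶠ q : ℝ × ℝ in 𝓝 (0, s₁), lo b k'.succ < W q :=
            hWc.continuousAt.eventually (lt_mem_nhds (by rw [hs]; exact hlt))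
          filter_upwards [this] with q hq _ _
          exact hq.le
      filter_upwards [h2, h3, h4] with q hq2 hq3 hq4 hs' hg ht
      have h5 := abs_le.1 (hq2 ht)
      have h6 : FF e b v 0 (W q) ≤ EE e b τ := by
        have : FF e b v 0 (W q) = EE e b (W q) := by simp [FF]
        rw [this, ← HH_eq hτ]
        exact le_HH e ⟨hq4 hs' hg, hq3.le⟩
      have h7 := h5.2
      linarith
    · -- away from the maximum point
      have hmem : W (0, s₁) ∈ Icc (lo b k) (b k) := by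
        have := lo_lt hb k
        simp only [hW, zero_smul, add_zero]
        constructor
        · have := mul_nonneg hs₁.1 (sub_pos.2 this).le
          linarith
        · have := mul_le_mul_of_nonneg_right hs₁.2 (sub_pos.2 this).le
          linarith
      have hlt := hτ.lt _ hmem hs
      have hc : Continuous fun q : ℝ × ℝ =>
          EE e b τ + q.1 * (GG e b v 0 τ + η) - FF e b v q.1 (W q) := by
        simp only [FF_eq]
        fun_prop
      have : ∀ᶠ q : ℝ × ℝ in 𝓝 (0, s₁),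
          0 < EE e b τ + q.1 * (GG e b v 0 τ + η) - FF e b v q.1 (W q) := by
        refine hc.continuousAt.eventually (lt_mem_nhds ?_)
        have e1 : FF e b v (0 : ℝ) (W (0, s₁)) = EE e b (W (0, s₁)) := by simp [FF]
        simp only [zero_mul, add_zero, e1]
        linarith
      filter_upwards [this] with q hq _ _ _
      linarith
  filter_upwards [key, eventually_good (v := v) hb] with t ht hg h0
  refine csSup_le ⟨_, 0, ⟨le_refl _, zero_le_one⟩, rfl⟩ ?_
  rintro _ ⟨s, hs, rfl⟩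
  exact ht s hs hs hg h0

/-- lower bound in Danskin's formula -/
theorem danskin_lower {e : ℕ} {b v : Fin (m + 1) → ℝ} {k : Fin (m + 1)} {τ : ℝ}
    (hτ : IsTop e b k τ) {η : ℝ} (hη : 0 < η) :
    ∀ᶠ t in 𝓝 (0 : ℝ), 0 < t →
      EE e b τ + t * (GG e b v 0 τ - η) ≤ HH e (b + t • v) k := by
  have h1 : Tendsto (fun t : ℝ => (t, τ)) (𝓝 0) (𝓝 (0, τ)) := by
    have : Continuous fun t : ℝ => (t, τ) := by fun_prop
    exact this.tendsto 0
  have h2 := h1.eventually (local_estimate (e := e) (b := b) (v := v) hτ.reg.ne hη)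
  have h3 : ∀ᶠ t in 𝓝 (0 : ℝ), τ < (b + t • v) k := by
    have hc : ContinuousAt (fun t : ℝ => (b + t • v) k) 0 := by
      simp only [Pi.add_apply, Pi.smul_apply, smul_eq_mul]
      fun_prop
    refine hc.eventually (lt_mem_nhds ?_)
    simpa using hτ.reg.2.2 k le_rfl
  have h4 : ∀ᶠ t in 𝓝 (0 : ℝ), lo (b + t • v) k ≤ τ := by
    rcases Fin.eq_zero_or_eq_succ k with hk | ⟨k', hk⟩
    · subst hk
      refine Filter.Eventually.of_forall fun t => ?_
      rw [lo_zero]
      exact hτ.reg.1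
    · subst hk
      have hlt : b k'.castSucc < τ := hτ.reg.2.1 _ Fin.castSucc_lt_succ
      have hc : ContinuousAt (fun t : ℝ => lo (b + t • v) k'.succ) 0 := by
        simp only [lo_line]
        fun_prop
      have : ∀ᶠ t in 𝓝 (0 : ℝ), lo (b + t • v) k'.succ < τ := by
        refine hc.eventually (gt_mem_nhds ?_)
        simpa [lo_succ] using hlt
      filter_upwards [this] with t ht
      exact ht.le
  filter_upwards [h2, h3, h4] with t ht2 ht3 ht4 h0
  have h5 := (abs_le.1 (ht2 h0)).1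
  have h6 : FF e b v t τ ≤ HH e (b + t • v) k := le_HH e ⟨ht4, ht3.le⟩
  have h7 : FF e b v 0 τ = EE e b τ := by simp [FF]
  rw [h7] at h5
  linarith

/-- Danskin's formula for the heights -/
theorem hasDeriv_HH {e : ℕ} {b v : Fin (m + 1) → ℝ} (hb : Good b) {k : Fin (m + 1)} {τ : ℝ}
    (hτ : IsTop e b k τ) :
    HasDerivWithinAt (fun t : ℝ => HH e (b + t • v) k)
      (EE e b τ * (2 * ∑ j, v j / (b j - τ))) (Ioi 0) 0 := by
  rw [← GG_zero, hasDerivWithinAt_iff_tendsto_slope' (by simp)]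
  rw [Metric.tendsto_nhds]
  intro ε hε
  have h1 := danskin_upper (v := v) hb hτ (half_pos hε)
  have h2 := danskin_lower (v := v) hτ (half_pos hε)
  filter_upwards [nhdsWithin_le_nhds h1, nhdsWithin_le_nhds h2, self_mem_nhdsWithin]
    with t ht1 ht2 ht
  have ht' : (0 : ℝ) < t := ht
  have h3 := ht1 ht'
  have h4 := ht2 ht'
  have e0 : HH e (b + (0 : ℝ) • v) k = EE e b τ := by
    rw [zero_smul, add_zero, HH_eq hτ]
  rw [slope_def_field, e0, sub_zero, Real.dist_eq, abs_lt]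
  constructor
  · rw [lt_sub_iff_add_lt, lt_div_iff₀ ht']
    nlinarith
  · rw [sub_lt_iff_lt_add, div_lt_iff₀ ht']
    nlinarith

end Pool.Agent.Helper27.CB
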