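import Pool.Agent.Helper27.CB.Cheb

/-!
# The extremal argument: monotone heights force positive coefficient quantities
-/

set_option autoImplicit false

open Set Filter Topology

namespace Pool.Agent.Helper27.CB

variable {m : ℕ}

theorem lo_le_of {c : Fin (m + 1) → ℝ} (h0 : ∀ j, 0 ≤ c j) (hc : Monotone c)
    (k : Fin (m + 1)) : lo c k ≤ c k := by
  refine Fin.cases ?_ (fun k => ?_) k
  · rw [lo_zero]
    exact h0 0
  · rw [lo_succ]
    exact hc (Fin.castSucc_lt_succ).le

theorem good_of {e : ℕ} {c : Fin (m + 1) → ℝ} (h0 : ∀ j, 0 ≤ c j) (hc : Monotone c)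
    (hl : 0 < c (Fin.last m)) (hH : Monotone (HH e c)) {θ : ℝ} (hθ : 0 < θ)
    (h : θ * HH e c (Fin.last m) ≤ HH e c 0) : Good c := by
  classical
  obtain ⟨w, hw, hwn⟩ := (Set.Ioo_infinite hl).exists_notMem_finset (Finset.univ.image c)
  have hne : ∀ j, w - c j ≠ 0 := by
    intro j hj
    apply hwn
    rw [Finset.mem_image]
    exact ⟨j, Finset.mem_univ _, by linarith⟩
  have hpos : 0 < HH e c (Fin.last m) := by
    have hS : (Finset.univ.filter fun k => w < c k).Nonempty :=
      ⟨Fin.last m, Finset.mem_filter.2 ⟨Finset.mem_univ _, hw.2⟩⟩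
    set k := (Finset.univ.filter fun k => w < c k).min' hS with hk
    have hk1 : w < c k := (Finset.mem_filter.1 (Finset.min'_mem _ hS)).2
    have hk2 : ∀ j, j < k → c j ≤ w := by
      intro j hj
      by_contra hh
      have hj' : j ∈ Finset.univ.filter fun k => w < c k :=
        Finset.mem_filter.2 ⟨Finset.mem_univ j, not_le.1 hh⟩
      have : k ≤ j := by
        rw [hk]
        exact Finset.min'_le _ j hj'
      exact absurd hj (not_lt.2 this)
    have hlo : lo c k ≤ w := by
      rcases Fin.eq_zero_or_eq_succ k with h1 | ⟨k', h1⟩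
      · rw [h1, lo_zero]
        exact hw.1.le
      · rw [h1, lo_succ]
        refine hk2 _ ?_
        rw [h1]
        exact Fin.castSucc_lt_succ
    have h1 : EE e c w ≤ HH e c k := le_HH e ⟨hlo, hk1.le⟩
    have h2 : 0 < EE e c w := EE_pos hw.1 hne
    exact (h2.trans_le h1).trans_le (hH (Fin.le_last k))
  have hpos' : ∀ k, 0 < HH e c k := fun k =>
    ((mul_pos hθ hpos).trans_le h).trans_le (hH (Fin.zero_le k))
  have hlt : ∀ k, lo c k < c k := by
    intro k
    refine lt_of_le_of_ne (lo_le_of h0 hc k) fun heq => ?_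
    have h1 : HH e c k ≤ 0 := by
      refine HH_le heq.le fun w hw => ?_
      have : w = c k := le_antisymm hw.2 (by rw [← heq]; exact hw.1)
      rw [this, EE_zero_at]
    exact absurd (hpos' k) (not_lt.2 h1)
  refine ⟨?_, ?_⟩
  · have := hlt 0
    rwa [lo_zero] at this
  · refine Fin.strictMono_iff_lt_succ.2 fun k => ?_
    have := hlt k.succ
    rwa [lo_succ] at this

theorem continuousOn_SS (e : ℕ) (i : Fin (m + 1)) {K : Set (Fin (m + 1) → ℝ)}
    (hK : ∀ c ∈ K, Good c) : ContinuousOn (fun c => SS e c i) K := by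
  unfold SS
  refine ContinuousOn.add continuousOn_const (ContinuousOn.mul continuousOn_const ?_)
  refine continuousOn_finsetSum _ fun j hj => ?_
  refine ContinuousOn.div (by fun_prop) (by fun_prop) fun c hc => ?_
  exact (hK c hc).ne (Finset.ne_of_mem_erase hj)

/-- monotone heights force positive coefficient quantities -/
theorem SS_pos {e : ℕ} (he : e ≤ 1) {b : Fin (m + 1) → ℝ} (hb : Good b)
    (hmono : Monotone (HH e b)) (i : Fin (m + 1)) : 0 < SS e b i := by
  by_contra hneg
  have hS0 : SS e b i ≤ 0 := not_lt.1 hneg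
  set β := b (Fin.last m) with hβ
  have hβpos : 0 < β := hb.pos _
  have hHpos : ∀ {c : Fin (m + 1) → ℝ}, Good c → ∀ k, 0 < HH e c k := by
    intro c hc k
    obtain ⟨τ, hτ⟩ := exists_top he hc k
    rw [HH_eq hτ]
    exact hτ.pos
  set θ := HH e b 0 / HH e b (Fin.last m) with hθ
  have hθpos : 0 < θ := div_pos (hHpos hb 0) (hHpos hb _)
  set K' : Set (Fin (m + 1) → ℝ) := {c | (∀ j, 0 ≤ c j) ∧ Monotone c ∧ c (Fin.last m) = β ∧
    Monotone (HH e c) ∧ θ * HH e c (Fin.last m) ≤ HH e c 0} with hK'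
  have hK'good : ∀ c ∈ K', Good c := by
    rintro c ⟨h1, h2, h3, h4, h5⟩
    exact good_of h1 h2 (by rw [h3]; exact hβpos) h4 hθpos h5
  have hcontH : Continuous fun c : Fin (m + 1) → ℝ => HH e c :=
    continuous_pi fun k => continuous_HH e k
  have hclosed : IsClosed K' := by
    have c1 : IsClosed {c : Fin (m + 1) → ℝ | ∀ j, 0 ≤ c j} := by
      rw [Set.ofPred_forall]
      exact isClosed_iInter fun j => isClosed_le continuous_const (continuous_apply j)
    have c2 : IsClosed {c : Fin (m + 1) → ℝ | Monotone c} := isClosed_monotone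
    have c3 : IsClosed {c : Fin (m + 1) → ℝ | c (Fin.last m) = β} :=
      isClosed_eq (continuous_apply _) continuous_const
    have c4 : IsClosed {c : Fin (m + 1) → ℝ | Monotone (HH e c)} :=
      c2.preimage hcontH
    have c5 : IsClosed {c : Fin (m + 1) → ℝ | θ * HH e c (Fin.last m) ≤ HH e c 0} :=
      isClosed_le (continuous_const.mul (continuous_HH e _)) (continuous_HH e _)
    exact c1.inter (c2.inter (c3.inter (c4.inter c5)))
  have hsub : K' ⊆ Icc (0 : Fin (m + 1) → ℝ) (fun _ => β) := by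
    rintro c ⟨h1, h2, h3, _, _⟩
    exact ⟨h1, fun j => by rw [← h3]; exact h2 (Fin.le_last j)⟩
  have hK'c : IsCompact K' := isCompact_Icc.of_isClosed_subset hclosed hsub
  set K : Set (Fin (m + 1) → ℝ) := K' ∩ (fun c => SS e c i) ⁻¹' Iic 0 with hK
  have hKc : IsCompact K :=
    hK'c.of_isClosed_subset
      ((continuousOn_SS e i hK'good).preimage_isClosed_of_isClosed hclosed isClosed_Iic)
      inter_subset_left
  have hbK : b ∈ K := by
    refine ⟨⟨fun j => (hb.pos j).le, hb.2.monotone, rfl, hmono, ?_⟩, hS0⟩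
    rw [hθ, div_mul_cancel₀ _ (hHpos hb _).ne']
  have hcont : ContinuousOn (fun c : Fin (m + 1) → ℝ => HH e c 0 / HH e c (Fin.last m)) K :=
    ContinuousOn.div (continuous_HH e _).continuousOn (continuous_HH e _).continuousOn
      fun c hc => (hHpos (hK'good c hc.1) _).ne'
  obtain ⟨c, hcK, hmax⟩ := hKc.exists_isMaxOn ⟨b, hbK⟩ hcont
  obtain ⟨⟨h1, h2, h3, h4, h5⟩, h6⟩ := hcK
  have hcg : Good c := hK'good c ⟨h1, h2, h3, h4, h5⟩
  rcases eq_or_lt_of_le (h4 (Fin.zero_le (Fin.last m))) with heq | hlt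
  · have hall : ∀ k, HH e c k = HH e c 0 := fun k =>
      le_antisymm ((h4 (Fin.le_last k)).trans heq.symm.le) (h4 (Fin.zero_le k))
    exact absurd (cheb_pos he hcg hall i) (not_lt.2 h6)
  · obtain ⟨d, hd1, hd2, hd3, hd4, hd5⟩ := improve he hcg h4 hlt h6
    have hq : HH e c 0 / HH e c (Fin.last m) < HH e d 0 / HH e d (Fin.last m) := by
      rw [div_lt_div_iff₀ (hHpos hcg _) (hHpos hd1 _)]
      exact hd5
    have hdK : d ∈ K := by
      refine ⟨⟨fun j => (hd1.pos j).le, hd1.2.monotone, hd2.trans h3, hd3, ?_⟩, hd4⟩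
      have h7 : θ ≤ HH e c 0 / HH e c (Fin.last m) := hmax hbK
      have h8 := h7.trans hq.le
      rwa [le_div_iff₀ (hHpos hd1 _)] at h8
    exact absurd (hmax hdK) (not_le.2 hq)

end Pool.Agent.Helper27.CB
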