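import Pool.Agent.Helper27.CB.Extremal

/-!
# Nonnegative coefficient quantities give the domination on vertical lines
-/

set_option autoImplicit false

open Set Filter Topology Polynomial

namespace Pool.Agent.Helper27.CB

variable {m : ℕ}

theorem RI_natDegree (b : Fin (m + 1) → ℝ) (i : Fin (m + 1)) : (RI b i).natDegree = m := by
  unfold RI
  rw [natDegree_finsetProd_X_sub_C_eq_card, Finset.card_erase_of_mem (Finset.mem_univ i)]
  simp

/-- the identity for the second derivative in the squared variable -/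
theorem second_identity (e : ℕ) {b : Fin (m + 1) → ℝ} (hb : Good b) :
    C ((4 : ℝ) * e + 2) * (RR b).derivative + C 4 * (X * (RR b).derivative.derivative)
      = ∑ i, C (2 * SS e b i) * RI b i := by
  refine Polynomial.eq_of_degrees_lt_of_eval_index_eq (v := b) Finset.univ
    (fun i _ j _ h => hb.2.injective h) ?_ ?_ ?_
  · rw [Finset.card_univ, Fintype.card_fin, degree_lt_iff_coeff_zero]
    intro k hk
    obtain ⟨k, rfl⟩ : ∃ k', k = k' + 1 := ⟨k - 1, by omega⟩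
    rw [coeff_add, coeff_C_mul, coeff_C_mul, coeff_X_mul, coeff_derivative, coeff_derivative,
      coeff_derivative,
      coeff_eq_zero_of_natDegree_lt (by rw [RR_natDegree]; omega)]
    ring
  · rw [Finset.card_univ, Fintype.card_fin, degree_lt_iff_coeff_zero]
    intro k hk
    rw [finsetSum_coeff]
    refine Finset.sum_eq_zero fun i _ => ?_
    rw [coeff_C_mul, coeff_eq_zero_of_natDegree_lt (by rw [RI_natDegree]; omega), mul_zero]
  · intro i _
    rw [eval_finsetSum, Finset.sum_eq_single i]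
    · simp only [eval_add, eval_mul, eval_C, eval_X]
      rw [RR_deriv_at, RR_deriv2_at hb]
      have h1 : ∑ j ∈ Finset.univ.erase i, b i / (b i - b j)
          = b i * ∑ j ∈ Finset.univ.erase i, 1 / (b i - b j) := by
        rw [Finset.mul_sum]
        exact Finset.sum_congr rfl fun j _ => by ring
      unfold SS
      rw [h1]
      ring
    · intro j _ hj
      rw [eval_mul, RI_eval, Finset.prod_eq_zero (i := i) _ (sub_self _), mul_zero]
      exact Finset.mem_erase.2 ⟨hj.symm, Finset.mem_univ _⟩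
    · intro h
      exact absurd (Finset.mem_univ _) h

/-- the polynomial itself -/
noncomputable def QQ (e : ℕ) (b : Fin (m + 1) → ℝ) : ℝ[X] := X ^ e * (RR b).comp (X ^ 2)

theorem QQ_second {e : ℕ} (he : e ≤ 1) {b : Fin (m + 1) → ℝ} (hb : Good b) :
    (QQ e b).derivative.derivative
      = X ^ e * (∑ i, C (2 * SS e b i) * RI b i).comp (X ^ 2) := by
  rw [← second_identity e hb]
  unfold QQ
  have c2 : (C (2 : ℝ) : ℝ[X]) = 2 := map_ofNat C 2
  have c4 : (C (4 : ℝ) : ℝ[X]) = 4 := map_ofNat C 4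
  have c6 : (C (6 : ℝ) : ℝ[X]) = 6 := map_ofNat C 6
  rcases Nat.le_one_iff_eq_zero_or_eq_one.1 he with rfl | rfl
  · simp only [pow_zero, one_mul, derivative_comp, derivative_mul, derivative_pow, derivative_X,
      add_comp, mul_comp, C_comp, X_comp]
    norm_num
    simp only [c2, c4]
    ring
  · simp only [pow_one, one_mul, derivative_comp, derivative_mul, derivative_pow, derivative_X,
      add_comp, mul_comp, C_comp, X_comp, derivative_add]
    norm_num
    simp only [c2, c4, c6]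
    ring

/-- value at a complex point -/
theorem QQ_aeval (e : ℕ) (b : Fin (m + 1) → ℝ) (z : ℂ) :
    aeval z (QQ e b) = z ^ e * ∏ j, (z ^ 2 - (b j : ℂ)) := by
  unfold QQ RR
  simp [aeval_comp, map_prod]

theorem QQ_second_aeval {e : ℕ} (he : e ≤ 1) {b : Fin (m + 1) → ℝ} (hb : Good b) (z : ℂ) :
    aeval z (QQ e b).derivative.derivative
      = z ^ e * ∑ i, ((2 * SS e b i : ℝ) : ℂ) * ∏ j ∈ Finset.univ.erase i, (z ^ 2 - (b j : ℂ)) := by
  rw [QQ_second he hb]
  simp [aeval_comp, map_prod, map_sum, RI]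

/-- the sign of the mixed product -/
theorem mixed_nonneg {e : ℕ} (he : e ≤ 1) {b : Fin (m + 1) → ℝ} (hb : Good b)
    (hS : ∀ i, 0 ≤ SS e b i) {z : ℂ} (hz : 0 ≤ (z ^ 2).im) :
    0 ≤ (starRingEnd ℂ (aeval z (QQ e b)) *
      (Complex.I * aeval z (QQ e b).derivative.derivative)).re := by
  have h1 : starRingEnd ℂ (aeval z (QQ e b)) *
      (Complex.I * aeval z (QQ e b).derivative.derivative)
      = ∑ i, ((2 * SS e b i * Complex.normSq
          (z ^ e * ∏ j ∈ Finset.univ.erase i, (z ^ 2 - (b j : ℂ))) : ℝ) : ℂ) *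
        (Complex.I * starRingEnd ℂ (z ^ 2 - (b i : ℂ))) := by
    rw [QQ_second_aeval he hb, QQ_aeval, Finset.mul_sum, Finset.mul_sum, Finset.mul_sum]
    refine Finset.sum_congr rfl fun i _ => ?_
    rw [← Finset.mul_prod_erase Finset.univ (fun j => z ^ 2 - (b j : ℂ)) (Finset.mem_univ i)]
    set P := ∏ j ∈ Finset.univ.erase i, (z ^ 2 - (b j : ℂ)) with hP
    rw [Complex.ofReal_mul (2 * SS e b i), ← Complex.mul_conj]
    simp only [map_mul]
    ring
  rw [h1, Complex.re_sum]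
  refine Finset.sum_nonneg fun i _ => ?_
  rw [Complex.re_ofReal_mul]
  refine mul_nonneg (mul_nonneg (mul_nonneg two_pos.le (hS i)) (Complex.normSq_nonneg _)) ?_
  simp only [Complex.mul_re, Complex.I_re, Complex.I_im, Complex.conj_re, Complex.conj_im,
    Complex.sub_im, Complex.ofReal_im]
  linarith

theorem hasDerivAt_line_x (p : ℝ[X]) (s x : ℝ) :
    HasDerivAt (fun x : ℝ => aeval ((x : ℂ) + (s : ℂ) * Complex.I) p)
      (aeval ((x : ℂ) + (s : ℂ) * Complex.I) p.derivative) x := by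
  have h1 : HasDerivAt (fun w : ℂ => w + (s : ℂ) * Complex.I) 1 (x : ℂ) :=
    (hasDerivAt_id _).add_const _
  have h2 := (p.hasDerivAt_aeval ((x : ℂ) + (s : ℂ) * Complex.I)).comp (x : ℂ) h1
  rw [mul_one] at h2
  exact h2.comp_ofReal

theorem hasDerivAt_line_y (p : ℝ[X]) (s x : ℝ) :
    HasDerivAt (fun s : ℝ => aeval ((x : ℂ) + (s : ℂ) * Complex.I) p)
      (aeval ((x : ℂ) + (s : ℂ) * Complex.I) p.derivative * Complex.I) s := by
  have h1 : HasDerivAt (fun w : ℂ => (x : ℂ) + w * Complex.I) (1 * Complex.I) (s : ℂ) :=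
    ((hasDerivAt_id _).mul_const _).const_add _
  have h2 := (p.hasDerivAt_aeval ((x : ℂ) + (s : ℂ) * Complex.I)).comp (s : ℂ) h1
  rw [one_mul] at h2
  exact h2.comp_ofReal

/-- half of the vertical derivative of the squared modulus -/
noncomputable def Phi (p : ℝ[X]) (x s : ℝ) : ℝ :=
  inner ℝ (aeval ((x : ℂ) + (s : ℂ) * Complex.I) p)
    (aeval ((x : ℂ) + (s : ℂ) * Complex.I) p.derivative * Complex.I)

theorem hasDerivAt_Phi (p : ℝ[X]) (s x : ℝ) :
    HasDerivAt (fun x => Phi p x s)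
      (starRingEnd ℂ (aeval ((x : ℂ) + (s : ℂ) * Complex.I) p) *
        (Complex.I * aeval ((x : ℂ) + (s : ℂ) * Complex.I) p.derivative.derivative)).re x := by
  have h1 := hasDerivAt_line_x p s x
  have h2 := (hasDerivAt_line_x p.derivative s x).mul_const Complex.I
  have h3 := h1.inner ℝ h2
  unfold Phi
  refine h3.congr_deriv ?_
  simp only [Complex.inner]
  have e1 : ∀ z : ℂ, ((z * Complex.I) * starRingEnd ℂ z).re = 0 := by
    intro z
    simp
    ring
  rw [e1, add_zero]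
  congr 1
  ring

theorem hasDerivAt_normSq (p : ℝ[X]) (s x : ℝ) :
    HasDerivAt (fun s : ℝ => ‖aeval ((x : ℂ) + (s : ℂ) * Complex.I) p‖ ^ 2)
      (2 * Phi p x s) s :=
  (hasDerivAt_line_y p s x).norm_sq

/-- the domination in the first quadrant -/
theorem growth_quadrant {e : ℕ} (he : e ≤ 1) {b : Fin (m + 1) → ℝ} (hb : Good b)
    (hS : ∀ i, 0 ≤ SS e b i) {x : ℝ} (hx : x ∈ Icc (0 : ℝ) 1)
    (h1 : ‖aeval ((x : ℂ) + ((0 : ℝ) : ℂ) * Complex.I) (QQ e b)‖ ^ 2
      ≤ ‖aeval (((1 : ℝ) : ℂ) + ((0 : ℝ) : ℂ) * Complex.I) (QQ e b)‖ ^ 2) {y : ℝ} (hy : 0 ≤ y) :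
    ‖aeval ((x : ℂ) + (y : ℂ) * Complex.I) (QQ e b)‖ ^ 2
      ≤ ‖aeval (((1 : ℝ) : ℂ) + (y : ℂ) * Complex.I) (QQ e b)‖ ^ 2 := by
  have hPhi : ∀ s : ℝ, 0 ≤ s → Phi (QQ e b) x s ≤ Phi (QQ e b) 1 s := by
    intro s hs
    have hmono : MonotoneOn (fun x => Phi (QQ e b) x s) (Ici 0) := by
      refine monotoneOn_of_deriv_nonneg (convex_Ici 0)
        (fun x _ => (hasDerivAt_Phi (QQ e b) s x).continuousAt.continuousWithinAt)
        (fun x _ => (hasDerivAt_Phi (QQ e b) s x).differentiableAt.differentiableWithinAt) ?_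
      intro x hx
      rw [interior_Ici] at hx
      rw [(hasDerivAt_Phi (QQ e b) s x).deriv]
      refine mixed_nonneg he hb hS ?_
      have hx0 : 0 ≤ x := le_of_lt hx
      simp [pow_two]
      positivity
    exact hmono hx.1 (mem_Ici.2 zero_le_one) hx.2
  have hmono : MonotoneOn (fun s : ℝ => ‖aeval (((1 : ℝ) : ℂ) + (s : ℂ) * Complex.I) (QQ e b)‖ ^ 2
      - ‖aeval ((x : ℂ) + (s : ℂ) * Complex.I) (QQ e b)‖ ^ 2) (Ici 0) := by
    have hd : ∀ s, HasDerivAt (fun s : ℝ =>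
        ‖aeval (((1 : ℝ) : ℂ) + (s : ℂ) * Complex.I) (QQ e b)‖ ^ 2
        - ‖aeval ((x : ℂ) + (s : ℂ) * Complex.I) (QQ e b)‖ ^ 2)
        (2 * Phi (QQ e b) 1 s - 2 * Phi (QQ e b) x s) s :=
      fun s => (hasDerivAt_normSq (QQ e b) s 1).sub (hasDerivAt_normSq (QQ e b) s x)
    refine monotoneOn_of_deriv_nonneg (convex_Ici 0)
      (fun s _ => (hd s).continuousAt.continuousWithinAt)
      (fun s _ => (hd s).differentiableAt.differentiableWithinAt) ?_
    intro s hs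
    rw [interior_Ici] at hs
    rw [(hd s).deriv]
    have := hPhi s (le_of_lt hs)
    linarith
  have h2 := hmono (mem_Ici.2 le_rfl) (mem_Ici.2 hy) hy
  simp only at h2
  linarith

theorem norm_reflect (e : ℕ) (b : Fin (m + 1) → ℝ) (z : ℂ) :
    ‖aeval (starRingEnd ℂ z) (QQ e b)‖ = ‖aeval z (QQ e b)‖ := by
  rw [QQ_aeval, QQ_aeval, ← Complex.norm_conj (z ^ e * ∏ j, (z ^ 2 - (b j : ℂ)))]
  congr 1
  simp [map_prod]

theorem norm_neg_arg (e : ℕ) (b : Fin (m + 1) → ℝ) (z : ℂ) :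
    ‖aeval (-z) (QQ e b)‖ = ‖aeval z (QQ e b)‖ := by
  rw [QQ_aeval, QQ_aeval, norm_mul, norm_mul, norm_pow, norm_pow, norm_neg, neg_sq]

/-- the domination -/
theorem growth {e : ℕ} (he : e ≤ 1) {b : Fin (m + 1) → ℝ} (hb : Good b)
    (hS : ∀ i, 0 ≤ SS e b i)
    (h1 : ∀ x ∈ Icc (0 : ℝ) 1, EE e b (x ^ 2) ≤ EE e b 1)
    {x : ℝ} (hx : x ∈ Icc (-1 : ℝ) 1) (y : ℝ) :
    ‖aeval ((x : ℂ) + (y : ℂ) * Complex.I) (QQ e b)‖
      ≤ ‖aeval ((1 : ℂ) + (y : ℂ) * Complex.I) (QQ e b)‖ := by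
  have hval : ∀ t : ℝ, ‖aeval ((t : ℂ) + ((0 : ℝ) : ℂ) * Complex.I) (QQ e b)‖ ^ 2
      = EE e b (t ^ 2) := by
    intro t
    have e1 : (t : ℂ) + ((0 : ℝ) : ℂ) * Complex.I = (t : ℂ) := by simp
    rw [e1, QQ_aeval]
    have e2 : (t : ℂ) ^ e * ∏ j, ((t : ℂ) ^ 2 - (b j : ℂ))
        = ((t ^ e * ∏ j, (t ^ 2 - b j) : ℝ) : ℂ) := by
      push_cast
      rfl
    rw [e2, Complex.norm_real, Real.norm_eq_abs, sq_abs]
    unfold EE
    ring
  have hquad : ∀ x ∈ Icc (0 : ℝ) 1, ∀ y : ℝ, 0 ≤ y →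
      ‖aeval ((x : ℂ) + (y : ℂ) * Complex.I) (QQ e b)‖
        ≤ ‖aeval ((1 : ℂ) + (y : ℂ) * Complex.I) (QQ e b)‖ := by
    intro x hx y hy
    have h2 := growth_quadrant he hb hS hx (by
      rw [hval, hval, one_pow]
      exact h1 x hx) hy
    have h3 := (pow_le_pow_iff_left₀ (norm_nonneg _) (norm_nonneg _) two_ne_zero).1 h2
    simpa using h3
  -- reduce to nonnegative y
  have hy : ∀ x y : ℝ, ‖aeval ((x : ℂ) + (y : ℂ) * Complex.I) (QQ e b)‖
      = ‖aeval ((|x| : ℝ) + ((|y| : ℝ) : ℂ) * Complex.I) (QQ e b)‖ := by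
    have c1 : ∀ x y : ℝ, ‖aeval ((x : ℂ) + (y : ℂ) * Complex.I) (QQ e b)‖
        = ‖aeval ((x : ℂ) + ((-y : ℝ) : ℂ) * Complex.I) (QQ e b)‖ := by
      intro x y
      rw [← norm_reflect e b ((x : ℂ) + (y : ℂ) * Complex.I)]
      congr 2
      simp
    have c2 : ∀ x y : ℝ, ‖aeval ((x : ℂ) + (y : ℂ) * Complex.I) (QQ e b)‖
        = ‖aeval (((-x : ℝ) : ℂ) + (y : ℂ) * Complex.I) (QQ e b)‖ := by
      intro x y
      rw [c1 x y, ← norm_neg_arg e b ((x : ℂ) + ((-y : ℝ) : ℂ) * Complex.I)]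
      congr 2
      push_cast
      ring_nf
    intro x y
    rcases abs_choice x with hx' | hx' <;> rcases abs_choice y with hy' | hy' <;> rw [hx', hy']
    · exact c1 x y
    · exact c2 x y
    · rw [c2 x y]
      exact c1 (-x) y
  have e1 := hy x y
  have e2 := hy 1 y
  rw [abs_one] at e2
  have e3 : ‖aeval ((1 : ℂ) + (y : ℂ) * Complex.I) (QQ e b)‖
      = ‖aeval ((1 : ℂ) + ((|y| : ℝ) : ℂ) * Complex.I) (QQ e b)‖ := by simpa using e2
  rw [e1, e3]
  exact hquad |x| ⟨abs_nonneg _, abs_le.2 hx⟩ |y| (abs_nonneg _)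

end Pool.Agent.Helper27.CB
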