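import Pool.Agent.Helper27.CB.Growth

/-!
# From the symmetric zeros to the squared zeros, and the main implication
-/

set_option autoImplicit false

open Set Filter Topology Polynomial

namespace Pool.Agent.Helper27.CB

variable {m : ℕ}

theorem exists_arch {b : Fin (m + 1) → ℝ} {w : ℝ} (h0 : 0 ≤ w) (h1 : w ≤ b (Fin.last m)) :
    ∃ k, w ∈ Icc (lo b k) (b k) := by
  have hS : (Finset.univ.filter fun k => w ≤ b k).Nonempty :=
    ⟨Fin.last m, Finset.mem_filter.2 ⟨Finset.mem_univ _, h1⟩⟩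
  set k := (Finset.univ.filter fun k => w ≤ b k).min' hS with hk
  have hk1 : w ≤ b k := (Finset.mem_filter.1 (Finset.min'_mem _ hS)).2
  have hk2 : ∀ j, j < k → b j ≤ w := by
    intro j hj
    by_contra hh
    have hj' : j ∈ Finset.univ.filter fun k => w ≤ b k :=
      Finset.mem_filter.2 ⟨Finset.mem_univ j, (not_le.1 hh).le⟩
    have : k ≤ j := by
      rw [hk]
      exact Finset.min'_le _ j hj'
    exact absurd hj (not_lt.2 this)
  refine ⟨k, ?_, hk1⟩
  rcases Fin.eq_zero_or_eq_succ k with h2 | ⟨k', h2⟩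
  · rw [h2, lo_zero]
    exact h0
  · rw [h2, lo_succ]
    refine hk2 _ ?_
    rw [h2]
    exact Fin.castSucc_lt_succ

theorem QQ_eval (e : ℕ) (b : Fin (m + 1) → ℝ) (s : ℝ) :
    (QQ e b).eval s = s ^ e * ∏ j, (s ^ 2 - b j) := by
  unfold QQ
  rw [eval_mul, eval_pow, eval_X, eval_comp, eval_pow, eval_X, RR_eval]

theorem QQ_eval_sq (e : ℕ) (b : Fin (m + 1) → ℝ) (s : ℝ) :
    |(QQ e b).eval s| ^ 2 = EE e b (s ^ 2) := by
  rw [sq_abs, QQ_eval]
  unfold EE
  ring

theorem QQ_deriv {e : ℕ} (he : e ≤ 1) (b : Fin (m + 1) → ℝ) (s : ℝ) :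
    s * (QQ e b).derivative.eval s = s ^ e * (CP e b).eval (s ^ 2) := by
  unfold QQ CP
  rcases Nat.le_one_iff_eq_zero_or_eq_one.1 he with rfl | rfl
  · simp only [pow_zero, one_mul, derivative_comp, derivative_pow, derivative_X]
    simp
    ring
  · simp only [pow_one, one_mul, derivative_comp, derivative_pow, derivative_X, derivative_mul,
      eval_add, eval_mul, eval_comp, eval_pow, eval_X, eval_C, Nat.cast_one, eval_one]
    push_cast
    ring

/-- the points at which the condition compares the values -/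
def Crit (Q : ℝ[X]) : Set ℝ := {0} ∪ {t | t ∈ Ioo (0 : ℝ) 1 ∧ Q.derivative.eval t = 0} ∪ {1}

theorem main {e : ℕ} (he : e ≤ 1) {b : Fin (m + 1) → ℝ} (hb : Good b)
    (hlast : b (Fin.last m) ≤ 1)
    (hB : ∀ s ∈ Crit (QQ e b), ∀ t ∈ Crit (QQ e b), s < t →
      |(QQ e b).eval s| ≤ |(QQ e b).eval t|)
    {x : ℝ} (hx : x ∈ Icc (-1 : ℝ) 1) (y : ℝ) :
    ‖aeval ((x : ℂ) + (y : ℂ) * Complex.I) (QQ e b)‖
      ≤ ‖aeval ((1 : ℂ) + (y : ℂ) * Complex.I) (QQ e b)‖ := by
  choose τ hτ using fun k => exists_top he hb k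
  have hτ0 : ∀ k, 0 ≤ τ k := fun k => (hτ k).reg.1
  have hτ1 : ∀ k, τ k < 1 := fun k =>
    ((hτ k).reg.2.2 k le_rfl).trans_le ((hb.2.monotone (Fin.le_last k)).trans hlast)
  have hsq : ∀ k, Real.sqrt (τ k) ^ 2 = τ k := fun k => Real.sq_sqrt (hτ0 k)
  have hlt1 : ∀ k, Real.sqrt (τ k) < 1 := fun k => by
    rw [Real.sqrt_lt' one_pos, one_pow]
    exact hτ1 k
  have hmem : ∀ k, Real.sqrt (τ k) ∈ Crit (QQ e b) := by
    intro k
    rcases eq_or_lt_of_le (hτ0 k) with h | h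
    · left
      left
      rw [← h, Real.sqrt_zero]
      rfl
    · left
      right
      have hs : 0 < Real.sqrt (τ k) := Real.sqrt_pos.2 h
      refine ⟨⟨hs, hlt1 k⟩, ?_⟩
      have h1 := QQ_deriv he b (Real.sqrt (τ k))
      rw [hsq k, CP_eval_top (hτ k), mul_zero] at h1
      exact (mul_eq_zero.1 h1).resolve_left hs.ne'
  have h1mem : (1 : ℝ) ∈ Crit (QQ e b) := Or.inr rfl
  have hval : ∀ k, HH e b k = |(QQ e b).eval (Real.sqrt (τ k))| ^ 2 := by
    intro k
    rw [HH_eq (hτ k), QQ_eval_sq, hsq k]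
  have hmono : Monotone (HH e b) := by
    intro k l hkl
    rcases eq_or_lt_of_le hkl with h | h
    · rw [h]
    · rw [hval k, hval l]
      refine pow_le_pow_left₀ (abs_nonneg _) (hB _ (hmem k) _ (hmem l) ?_) 2
      exact Real.sqrt_lt_sqrt (hτ0 k) (tops_lt (hτ k) (hτ l) h)
  have hE1 : EE e b 1 = |(QQ e b).eval 1| ^ 2 := by
    rw [QQ_eval_sq, one_pow]
  refine growth he hb (fun i => (SS_pos he hb hmono i).le) ?_ hx y
  intro x hx
  have hw0 : 0 ≤ x ^ 2 := sq_nonneg x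
  have hw1 : x ^ 2 ≤ 1 := by
    have := pow_le_pow_left₀ hx.1 hx.2 2
    simpa using this
  rcases le_total (x ^ 2) (b (Fin.last m)) with h | h
  · obtain ⟨k, hk⟩ := exists_arch hw0 h
    refine (le_HH e hk).trans ?_
    rw [hval k, hE1]
    exact pow_le_pow_left₀ (abs_nonneg _) (hB _ (hmem k) _ h1mem (hlt1 k)) 2
  · unfold EE
    refine mul_le_mul (pow_le_pow_left₀ hw0 hw1 e) ?_ (sq_nonneg _) (by simp)
    refine pow_le_pow_left₀ (Finset.prod_nonneg fun j _ => ?_)
      (Finset.prod_le_prod (fun j _ => ?_) fun j _ => ?_) 2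
    · exact sub_nonneg.2 ((hb.2.monotone (Fin.le_last j)).trans h)
    · exact sub_nonneg.2 ((hb.2.monotone (Fin.le_last j)).trans h)
    · linarith

/-- the even case of the conversion -/
theorem rep_even {p : ℕ} (x : Fin ((p + 1) + (p + 1)) → ℝ) (hx : StrictMono x)
    (h1 : ∀ j, x j ∈ Icc (-1 : ℝ) 1) (hs : ∀ j, x j = -x (Fin.rev j)) :
    ∃ b : Fin (p + 1) → ℝ, Good b ∧ b (Fin.last p) ≤ 1 ∧ ∏ j, (X - C (x j)) = QQ 0 b := by
  set u : Fin (p + 1) → ℝ := fun k => x (Fin.natAdd (p + 1) k) with hu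
  have hneg : ∀ k : Fin (p + 1), x (Fin.castAdd (p + 1) (Fin.rev k)) = - u k := by
    intro k
    rw [hs, hu]
    congr 2
    ext
    simp [Fin.val_rev]
    omega
  have hupos : ∀ k, 0 < u k := by
    intro k
    have h : x (Fin.castAdd (p + 1) (Fin.rev k)) < u k := by
      refine hx ?_
      rw [Fin.lt_def]
      simp [Fin.val_rev]
      omega
    rw [hneg k] at h
    linarith
  have humono : StrictMono u := by
    intro k l hkl
    refine hx ?_
    rw [Fin.lt_def] at hkl ⊢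
    simpa using hkl
  refine ⟨fun k => u k ^ 2, ⟨?_, ?_⟩, ?_, ?_⟩
  · exact pow_pos (hupos 0) 2
  · intro k l hkl
    exact pow_lt_pow_left₀ (humono hkl) (hupos k).le two_ne_zero
  · have := pow_le_pow_left₀ (hupos (Fin.last p)).le (h1 (Fin.natAdd (p + 1) (Fin.last p))).2 2
    simpa using this
  · rw [Fin.prod_univ_add]
    have e1 : ∏ i : Fin (p + 1), (X - C (x (Fin.castAdd (p + 1) i)) : ℝ[X])
        = ∏ i : Fin (p + 1), (X + C (u i)) := by
      rw [← Equiv.prod_comp Fin.revPerm]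
      refine Finset.prod_congr rfl fun i _ => ?_
      rw [Fin.revPerm_apply, hneg i, C_neg, sub_neg_eq_add]
    rw [e1, ← Finset.prod_mul_distrib]
    unfold QQ RR
    rw [pow_zero, one_mul, Polynomial.prod_comp]
    refine Finset.prod_congr rfl fun i _ => ?_
    rw [sub_comp, X_comp, C_comp, C_pow]
    change (X + C (u i)) * (X - C (u i)) = X ^ 2 - C (u i) ^ 2
    ring

/-- the odd case of the conversion -/
theorem rep_odd {p : ℕ} (x : Fin ((p + 1) + (1 + (p + 1))) → ℝ) (hx : StrictMono x)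
    (h1 : ∀ j, x j ∈ Icc (-1 : ℝ) 1) (hs : ∀ j, x j = -x (Fin.rev j)) :
    ∃ b : Fin (p + 1) → ℝ, Good b ∧ b (Fin.last p) ≤ 1 ∧ ∏ j, (X - C (x j)) = QQ 1 b := by
  set u : Fin (p + 1) → ℝ := fun k => x (Fin.natAdd (p + 1) (Fin.natAdd 1 k)) with hu
  have hneg : ∀ k : Fin (p + 1), x (Fin.castAdd (1 + (p + 1)) (Fin.rev k)) = - u k := by
    intro k
    rw [hs, hu]
    congr 2
    ext
    simp [Fin.val_rev]
    omega
  have hmid : x (Fin.natAdd (p + 1) (Fin.castAdd (p + 1) (0 : Fin 1))) = 0 := by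
    have h := hs (Fin.natAdd (p + 1) (Fin.castAdd (p + 1) (0 : Fin 1)))
    have e1 : Fin.rev (Fin.natAdd (p + 1) (Fin.castAdd (p + 1) (0 : Fin 1)))
        = Fin.natAdd (p + 1) (Fin.castAdd (p + 1) (0 : Fin 1)) := by
      ext
      simp [Fin.val_rev]
      omega
    rw [e1] at h
    linarith
  have hupos : ∀ k, 0 < u k := by
    intro k
    have h : x (Fin.castAdd (1 + (p + 1)) (Fin.rev k)) < u k := by
      refine hx ?_
      rw [Fin.lt_def]
      simp [Fin.val_rev]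
      omega
    rw [hneg k] at h
    linarith
  have humono : StrictMono u := by
    intro k l hkl
    refine hx ?_
    rw [Fin.lt_def] at hkl ⊢
    simpa using hkl
  refine ⟨fun k => u k ^ 2, ⟨?_, ?_⟩, ?_, ?_⟩
  · exact pow_pos (hupos 0) 2
  · intro k l hkl
    exact pow_lt_pow_left₀ (humono hkl) (hupos k).le two_ne_zero
  · have := pow_le_pow_left₀ (hupos (Fin.last p)).le
      (h1 (Fin.natAdd (p + 1) (Fin.natAdd 1 (Fin.last p)))).2 2
    simpa using this
  · rw [Fin.prod_univ_add]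
    have e1 : ∏ i : Fin (p + 1), (X - C (x (Fin.castAdd (1 + (p + 1)) i)) : ℝ[X])
        = ∏ i : Fin (p + 1), (X + C (u i)) := by
      rw [← Equiv.prod_comp Fin.revPerm]
      refine Finset.prod_congr rfl fun i _ => ?_
      rw [Fin.revPerm_apply, hneg i, C_neg, sub_neg_eq_add]
    have e2 : ∏ i : Fin 1, (X - C (x (Fin.natAdd (p + 1) (Fin.castAdd (p + 1) i))) : ℝ[X])
        = X := by
      rw [Fin.prod_univ_one, hmid, C_0, sub_zero]
    have e3 : ∏ i : Fin (1 + (p + 1)), (X - C (x (Fin.natAdd (p + 1) i)) : ℝ[X])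
        = X * ∏ i : Fin (p + 1), (X - C (u i)) := by
      refine (Fin.prod_univ_add _).trans ?_
      rw [e2]
    rw [e1, e3]
    unfold QQ RR
    rw [pow_one, Polynomial.prod_comp, mul_left_comm, ← Finset.prod_mul_distrib]
    congr 1
    refine Finset.prod_congr rfl fun i _ => ?_
    rw [sub_comp, X_comp, C_comp, C_pow]
    ring

end Pool.Agent.Helper27.CB
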